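import Mathlib

set_option autoImplicit false

/-!
Helper file for `S06096` (refinement types of centrally symmetric polytopes).
-/

namespace Pool.Agent.Helper447.CSRef

open Set Filter Topology

variable {E : Type*} [NormedAddCommGroup E] [NormedSpace ℝ E]

/-- The polyhedron cut out by the inequalities `n i x ≤ 1`. -/
def poly {ι : Type*} (n : ι → E →L[ℝ] ℝ) : Set E := {x | ∀ i, n i x ≤ 1}

/-- `z` is a point at which exactly the `i`-th inequality is active. -/
def Simple {ι : Type*} (n : ι → E →L[ℝ] ℝ) (i : ι) (z : E) : Prop :=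
  n i z = 1 ∧ ∀ j, j ≠ i → n j z < 1

lemma Simple.mem {ι : Type*} {n : ι → E →L[ℝ] ℝ} {i : ι} {z : E} (h : Simple n i z) :
    z ∈ poly n := by
  intro j
  by_cases hj : j = i
  · rw [hj]; exact h.1.le
  · exact (h.2 j hj).le

lemma isClosed_poly {ι : Type*} (n : ι → E →L[ℝ] ℝ) : IsClosed (poly n) := by
  have : poly n = ⋂ i, {x | n i x ≤ 1} := by ext x; simp [poly]
  rw [this]
  exact isClosed_iInter fun i => isClosed_le (n i).continuous continuous_const

lemma convex_poly {ι : Type*} (n : ι → E →L[ℝ] ℝ) : Convex ℝ (poly n) := by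
  intro x hx y hy a b ha hb hab i
  have h1 := hx i
  have h2 := hy i
  simp only [map_add, map_smul, smul_eq_mul]
  nlinarith [mul_le_mul_of_nonneg_left h1 ha, mul_le_mul_of_nonneg_left h2 hb]

lemma interior_poly {ι : Type*} [Finite ι] (n : ι → E →L[ℝ] ℝ) :
    interior (poly n) = {x | ∀ i, n i x < 1} := by
  apply Subset.antisymm
  · intro x hx i
    by_contra h
    have hle : n i x ≤ 1 := (interior_subset hx) i
    have h1 : n i x = 1 := le_antisymm hle (not_lt.mp h)
    have hc : Tendsto (fun t : ℝ => x + t • x) (𝓝[>] 0) (𝓝 x) := by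
      have : Tendsto (fun t : ℝ => x + t • x) (𝓝 0) (𝓝 (x + (0:ℝ) • x)) := by
        apply Continuous.tendsto; fun_prop
      simp only [zero_smul, add_zero] at this
      exact this.mono_left nhdsWithin_le_nhds
    have hev := hc.eventually (mem_interior_iff_mem_nhds.mp hx)
    obtain ⟨t, ht, ht0⟩ := (hev.and self_mem_nhdsWithin).exists
    have h2 := ht i
    have ht0' : 0 < t := ht0
    simp only [map_add, map_smul, smul_eq_mul, h1, mul_one] at h2
    linarith
  · apply interior_maximal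
    · intro x hx i
      exact (hx i).le
    · have : {x : E | ∀ i, n i x < 1} = ⋂ i, {x | n i x < 1} := by ext x; simp
      rw [this]
      exact isOpen_iInter_of_finite fun i => isOpen_lt (n i).continuous continuous_const

lemma mem_frontier_poly {ι : Type*} [Finite ι] (n : ι → E →L[ℝ] ℝ) (x : E) :
    x ∈ frontier (poly n) ↔ x ∈ poly n ∧ ∃ i, n i x = 1 := by
  rw [(isClosed_poly n).frontier_eq, interior_poly]
  constructor
  · rintro ⟨h1, h2⟩
    refine ⟨h1, ?_⟩
    by_contra h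
    push Not at h
    exact h2 fun i => lt_of_le_of_ne (h1 i) (h i)
  · rintro ⟨h1, i, hi⟩
    refine ⟨h1, fun h2 => ?_⟩
    have := h2 i
    linarith

/-- A face of the polyhedron containing a simple point of facet `i` contains facet `i`. -/
lemma face_of_simple {ι : Type*} [Finite ι] (n : ι → E →L[ℝ] ℝ) {G : Set E}
    (hG : IsExposed ℝ (poly n) G) {i : ι} {z : E} (hz : Simple n i z) (hzG : z ∈ G)
    {x : E} (hx : x ∈ poly n) (hxi : n i x = 1) : x ∈ G := by
  obtain ⟨l, hl⟩ := hG ⟨z, hzG⟩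
  have hev : ∀ᶠ t : ℝ in 𝓝[>] 0, ∀ j, n j (z + t • (z - x)) ≤ 1 := by
    rw [eventually_all]
    intro j
    by_cases hj : j = i
    · subst hj
      refine Eventually.of_forall fun t => ?_
      simp only [map_add, map_smul, map_sub, smul_eq_mul, hxi, hz.1]
      simp
    · have hc : Tendsto (fun t : ℝ => n j (z + t • (z - x))) (𝓝[>] 0) (𝓝 (n j z)) := by
        have : Tendsto (fun t : ℝ => n j (z + t • (z - x))) (𝓝 0)
            (𝓝 (n j (z + (0:ℝ) • (z - x)))) := by
          apply Continuous.tendsto; fun_prop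
        simp only [zero_smul, add_zero] at this
        exact this.mono_left nhdsWithin_le_nhds
      filter_upwards [hc.eventually (gt_mem_nhds (hz.2 j hj))] with t ht
      exact ht.le
  obtain ⟨t, ht, ht0⟩ := (hev.and self_mem_nhdsWithin).exists
  have ht0' : 0 < t := ht0
  rw [hl] at hzG ⊢
  have h1 := hzG.2 _ ht
  simp only [map_add, map_smul, map_sub, smul_eq_mul] at h1
  have h2 : l z ≤ l x := by
    by_contra h
    push Not at h
    nlinarith [mul_pos ht0' (sub_pos.mpr h)]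
  exact ⟨hx, fun y hy => (hzG.2 y hy).trans h2⟩

/-- Simple points are dense in the boundary. -/
lemma dense_simple {ι : Type*} [Finite ι] (n : ι → E →L[ℝ] ℝ)
    (hsimple : ∀ i, ∃ z, Simple n i z) (x : ↥(frontier (poly n)))
    {O : Set ↥(frontier (poly n))} (hO : O ∈ 𝓝 x) :
    ∃ z ∈ O, ∃ k, Simple n k (z : E) := by
  obtain ⟨hxP, i, hi⟩ := (mem_frontier_poly n x).mp x.2
  obtain ⟨z, hz⟩ := hsimple i
  rw [nhds_subtype_eq_comap, mem_comap] at hO
  obtain ⟨O', hO', hsub⟩ := hO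
  have hc : Tendsto (fun t : ℝ => (x : E) + t • (z - x)) (𝓝[>] 0) (𝓝 (x : E)) := by
    have : Tendsto (fun t : ℝ => (x : E) + t • (z - x)) (𝓝 0)
        (𝓝 ((x : E) + (0:ℝ) • (z - x))) := by
      apply Continuous.tendsto; fun_prop
    simp only [zero_smul, add_zero] at this
    exact this.mono_left nhdsWithin_le_nhds
  have h1 : ∀ᶠ t : ℝ in 𝓝[>] 0, t < 1 :=
    (eventually_lt_nhds (by norm_num : (0:ℝ) < 1)).filter_mono nhdsWithin_le_nhds
  obtain ⟨t, ⟨ht, ht1⟩, ht0⟩ := (((hc.eventually hO').and h1).and self_mem_nhdsWithin).exists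
  have ht0' : 0 < t := ht0
  have hs : Simple n i ((x : E) + t • (z - x)) := by
    constructor
    · simp [hi, hz.1]
    · intro j hj
      have h2 := hz.2 j hj
      have h3 := hxP j
      simp only [map_add, map_smul, map_sub, smul_eq_mul]
      nlinarith [mul_pos ht0' (sub_pos.mpr h2), mul_nonneg (sub_nonneg.mpr ht1.le) (sub_nonneg.mpr h3)]
  exact ⟨⟨_, (mem_frontier_poly n _).mpr ⟨hs.mem, i, hs.1⟩⟩, hsub ht, i, hs⟩

/-- Supporting functional at a boundary point. -/
lemma exists_support {Q : Set E} (hQc : Convex ℝ Q) (hQi : (interior Q).Nonempty)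
    {q : E} (hq : q ∈ frontier Q) :
    ∃ f : E →L[ℝ] ℝ, (∀ x ∈ Q, f x ≤ f q) ∧ (∀ x ∈ interior Q, f x < f q) := by
  obtain ⟨f, hf⟩ := geometric_hahn_banach_open_point (hQc.interior) isOpen_interior
    (fun h => hq.2 h : q ∉ interior Q)
  refine ⟨f, ?_, hf⟩
  intro x hx
  have h1 : x ∈ closure (interior Q) := by
    rw [hQc.closure_interior_eq_closure_of_nonempty_interior hQi]
    exact subset_closure hx
  have h2 : closure (interior Q) ⊆ {x | f x ≤ f q} := by
    apply closure_minimal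
    · intro y hy
      exact (hf y hy).le
    · exact isClosed_le f.continuous continuous_const
  exact h2 h1

lemma preconn_frontier {X : Type*} [TopologicalSpace X] {S A : Set X} (hS : IsPreconnected S)
    (hA : IsOpen A) {a b : X} (haS : a ∈ S) (haA : a ∈ A) (hbS : b ∈ S) (hbA : b ∉ A) :
    ∃ y ∈ S, y ∈ frontier A := by
  by_contra hno
  push Not at hno
  have hcov : S ⊆ A ∪ (closure A)ᶜ := by
    intro y hy
    by_cases h1 : y ∈ A
    · exact Or.inl h1
    · right
      intro h2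
      exact hno y hy ⟨h2, by rwa [hA.interior_eq]⟩
  have hb : b ∈ (closure A)ᶜ := by
    rcases hcov hbS with h | h
    · exact absurd h hbA
    · exact h
  obtain ⟨y, -, hy1, hy2⟩ := hS A (closure A)ᶜ hA isClosed_closure.isOpen_compl hcov
    ⟨a, haS, haA⟩ ⟨b, hbS, hb⟩
  exact hy2 (subset_closure hy1)

/-- If all boundary points near `u0` are on the hyperplane `f = M`, then points near `u0` below
the hyperplane are interior. -/
lemma half_ball {Q : Set E} (hQc : Convex ℝ Q) {f : E →L[ℝ] ℝ} {M : ℝ}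
    {o : E} (ho : o ∈ interior Q) (hoM : f o < M) {u0 : E} (hu0 : u0 ∈ Q) (hu0M : f u0 = M)
    {r : ℝ} (hr : 0 < r) (hball : ∀ x ∈ frontier Q, dist x u0 < r → f x = M) :
    ∀ x, dist x u0 < r → f x < M → x ∈ interior Q := by
  intro x hx hfx
  by_contra hxi
  have hc : Tendsto (fun t : ℝ => u0 + t • (o - u0)) (𝓝[>] 0) (𝓝 u0) := by
    have : Tendsto (fun t : ℝ => u0 + t • (o - u0)) (𝓝 0) (𝓝 (u0 + (0:ℝ) • (o - u0))) := by
      apply Continuous.tendsto; fun_prop
    simp only [zero_smul, add_zero] at this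
    exact this.mono_left nhdsWithin_le_nhds
  have h1 : ∀ᶠ t : ℝ in 𝓝[>] 0, t < 1 :=
    (eventually_lt_nhds (by norm_num : (0:ℝ) < 1)).filter_mono nhdsWithin_le_nhds
  obtain ⟨t, ⟨ht, ht1⟩, ht0⟩ := (((hc.eventually (Metric.ball_mem_nhds u0 hr)).and h1).and
    self_mem_nhdsWithin).exists
  have ht0' : 0 < t := ht0
  have hot : u0 + t • (o - u0) ∈ interior Q :=
    hQc.add_smul_sub_mem_interior hu0 ho ⟨ht0', ht1.le⟩
  have hfot : f (u0 + t • (o - u0)) < M := by
    simp only [map_add, map_smul, map_sub, smul_eq_mul, hu0M]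
    nlinarith
  have hpre : IsPreconnected (segment ℝ (u0 + t • (o - u0)) x) :=
    (convex_segment _ _).isPreconnected
  obtain ⟨y, hy1, hy2⟩ := preconn_frontier hpre (A := interior Q) isOpen_interior
    (left_mem_segment ℝ _ _) hot (right_mem_segment ℝ _ _) hxi
  have hyf : y ∈ frontier Q := frontier_interior_subset hy2
  have hyb : y ∈ Metric.ball u0 r :=
    (convex_ball u0 r).segment_subset ht (Metric.mem_ball.mpr hx) hy1
  have hyM : f y < M := by
    have hconv : Convex ℝ {y : E | f y < M} := convex_halfSpace_lt f.toLinearMap.isLinear M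
    exact hconv.segment_subset hfot hfx hy1
  have := hball y hyf (Metric.mem_ball.mp hyb)
  linarith

lemma spread_face {Q : Set E} (hQc : Convex ℝ Q) (hQcl : IsClosed Q) {f : E →L[ℝ] ℝ} {M : ℝ}
    (hfM : ∀ x ∈ Q, f x ≤ M)
    {o : E} (ho : o ∈ interior Q) (hoM : f o < M) {u0 : E} (hu0 : u0 ∈ Q) (hu0M : f u0 = M)
    {r : ℝ} (hr : 0 < r) (hball : ∀ x ∈ frontier Q, dist x u0 < r → f x = M)
    {u : E} (hu : u ∈ Q) (hfu : f u = M) {s : ℝ} (hs0 : 0 < s) (hs1 : s ≤ 1) :
    ∀ x ∈ frontier Q, dist x (u + s • (u0 - u)) < s * r → f x = M := by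
  intro x hx hd
  by_contra hne
  have hxQ : x ∈ Q := hQcl.frontier_subset hx
  have hlt : f x < M := lt_of_le_of_ne (hfM x hxQ) hne
  set w := u + s • (u0 - u) with hw
  set x0 := u0 + s⁻¹ • (x - w) with hx0
  have hd0 : dist x0 u0 < r := by
    rw [hx0, dist_eq_norm, add_sub_cancel_left, norm_smul, norm_inv, Real.norm_of_nonneg hs0.le]
    rw [dist_eq_norm] at hd
    rw [inv_mul_lt_iff₀ hs0]
    exact hd
  have hf0 : f x0 < M := by
    have hfw : f w = M := by
      simp only [hw, map_add, map_smul, map_sub, smul_eq_mul, hfu, hu0M]; ring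
    simp only [hx0, map_add, map_smul, map_sub, smul_eq_mul, hu0M, hfw]
    have : s⁻¹ * (f x - M) < 0 := mul_neg_of_pos_of_neg (inv_pos.mpr hs0) (by linarith)
    linarith
  have hint := half_ball hQc ho hoM hu0 hu0M hr hball x0 hd0 hf0
  have hxint : u + s • (x0 - u) ∈ interior Q :=
    hQc.add_smul_sub_mem_interior hu hint ⟨hs0, hs1⟩
  have heq : u + s • (x0 - u) = x := by
    rw [hx0, hw]
    rw [smul_sub, smul_add, smul_smul, mul_inv_cancel₀ hs0.ne', one_smul, smul_sub]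
    abel
  rw [heq] at hxint
  exact hx.2 hxint

/-- The refinement condition of the problem. -/
def Refines {ι : Type*} (n : ι → E →L[ℝ] ℝ) {Q : Set E}
    (φ : ↥(frontier (poly n)) ≃ₜ ↥(frontier Q)) : Prop :=
  ∀ F : Set E, (F.Nonempty ∧ F ≠ Q ∧ IsExposed ℝ Q F) →
    ∃ 𝒮 : Set (Set E), (∀ G ∈ 𝒮, G.Nonempty ∧ G ≠ poly n ∧ IsExposed ℝ (poly n) G) ∧
      ∀ x : ↥(frontier (poly n)), ((x : E) ∈ ⋃₀ 𝒮 ↔ ((φ x : E) ∈ F))

lemma lift_face {ι : Type*} [Finite ι] (n : ι → E →L[ℝ] ℝ) {Q : Set E}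
    (φ : ↥(frontier (poly n)) ≃ₜ ↥(frontier Q)) (hφ : Refines n φ)
    {F : Set E} (hF : F.Nonempty ∧ F ≠ Q ∧ IsExposed ℝ Q F)
    {i : ι} {z : ↥(frontier (poly n))} (hz : Simple n i (z : E)) (hzF : (φ z : E) ∈ F)
    (x : ↥(frontier (poly n))) (hx : n i (x : E) = 1) : (φ x : E) ∈ F := by
  obtain ⟨𝒮, h1, h2⟩ := hφ F hF
  obtain ⟨G, hG, hzG⟩ := (h2 z).mpr hzF
  exact (h2 x).mp ⟨G, hG, face_of_simple n (h1 G hG).2.2 hz hzG
    ((mem_frontier_poly n _).mp x.2).1 hx⟩

lemma exposed_max {Q : Set E} {f : E →L[ℝ] ℝ} {M : ℝ} (hfM : ∀ x ∈ Q, f x ≤ M)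
    {q : E} (hq : q ∈ Q) (hfq : f q = M) {o : E} (ho : o ∈ Q) (hoM : f o < M) :
    ({x | x ∈ Q ∧ f x = M}).Nonempty ∧ {x | x ∈ Q ∧ f x = M} ≠ Q ∧
      IsExposed ℝ Q {x | x ∈ Q ∧ f x = M} := by
  refine ⟨⟨q, hq, hfq⟩, ?_, ?_⟩
  · intro h
    have : o ∈ {x | x ∈ Q ∧ f x = M} := by rw [h]; exact ho
    exact hoM.ne this.2
  · intro _
    refine ⟨f, ?_⟩
    ext x
    constructor
    · rintro ⟨h1, h2⟩
      exact ⟨h1, fun y hy => by rw [h2]; exact hfM y hy⟩
    · rintro ⟨h1, h2⟩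
      exact ⟨h1, le_antisymm (hfM x h1) (by rw [← hfq]; exact h2 q hq)⟩

/-- For each facet of `P` there is a supporting functional of `Q` which is constant on its image,
together with a ball in which the whole boundary of `Q` is in the corresponding face. -/
lemma facet_data {ι : Type*} [Finite ι] (n : ι → E →L[ℝ] ℝ)
    (hsimple : ∀ i, ∃ z, Simple n i z)
    {Q : Set E} (hQc : Convex ℝ Q) (hQcl : IsClosed Q) (hQi : (interior Q).Nonempty)
    (φ : ↥(frontier (poly n)) ≃ₜ ↥(frontier Q)) (hφ : Refines n φ) (i : ι) :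
    ∃ (f : E →L[ℝ] ℝ) (M : ℝ), (∀ x ∈ Q, f x ≤ M) ∧ (∀ x ∈ interior Q, f x < M) ∧
      (∀ x : ↥(frontier (poly n)), n i (x : E) = 1 → f (φ x) = M) ∧
      ∃ u0 ∈ frontier Q, f u0 = M ∧ ∃ r : ℝ, 0 < r ∧
        ∀ x ∈ frontier Q, dist x u0 < r → f x = M := by
  obtain ⟨z0, hz0⟩ := hsimple i
  obtain ⟨z, hzz⟩ : ∃ z : ↥(frontier (poly n)), (z : E) = z0 :=
    ⟨⟨z0, (mem_frontier_poly n _).mpr ⟨hz0.mem, i, hz0.1⟩⟩, rfl⟩
  have hz : Simple n i (z : E) := by rw [hzz]; exact hz0
  obtain ⟨f, hf1, hf2⟩ := exists_support hQc hQi (φ z).2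
  obtain ⟨o, ho⟩ := hQi
  have hF := exposed_max hf1 (hQcl.frontier_subset (φ z).2) rfl (interior_subset ho) (hf2 o ho)
  have hface : ∀ x : ↥(frontier (poly n)), n i (x : E) = 1 → f (φ x) = f (φ z) := by
    intro x hx
    exact (lift_face n φ hφ hF hz ⟨hQcl.frontier_subset (φ z).2, rfl⟩ x hx).2
  refine ⟨f, f (φ z), hf1, hf2, hface, φ z, (φ z).2, rfl, ?_⟩
  -- neighbourhood
  have hN : ∀ᶠ x : ↥(frontier (poly n)) in 𝓝 z, ∀ j, j ≠ i → n j (x : E) < 1 := by
    rw [eventually_all]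
    intro j
    by_cases hj : j = i
    · exact Eventually.of_forall fun x h => absurd hj h
    · have hc : Tendsto (fun x : ↥(frontier (poly n)) => n j (x : E)) (𝓝 z) (𝓝 (n j (z : E))) :=
        ((n j).continuous.comp continuous_subtype_val).tendsto z
      filter_upwards [hc.eventually (gt_mem_nhds (hz.2 j hj))] with x hx _
      exact hx
  have hN2 : ∀ᶠ x : ↥(frontier (poly n)) in 𝓝 z, f (φ x) = f (φ z) := by
    filter_upwards [hN] with x hx
    obtain ⟨-, k, hk⟩ := (mem_frontier_poly n _).mp x.2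
    by_cases hki : k = i
    · subst hki; exact hface x hk
    · exact absurd hk (hx k hki).ne
  have hN3 : ∀ᶠ u : ↥(frontier Q) in 𝓝 (φ z), f (u : E) = f (φ z) := by
    have hc : Tendsto φ.symm (𝓝 (φ z)) (𝓝 z) := by
      have := φ.symm.continuous.tendsto (φ z)
      simpa using this
    filter_upwards [hc.eventually hN2] with u hu
    simpa using hu
  obtain ⟨r, hr, hball⟩ := Metric.eventually_nhds_iff.mp hN3
  exact ⟨r, hr, fun x hx hd => hball (y := ⟨x, hx⟩) hd⟩

omit [NormedSpace ℝ E] in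
lemma mem_frontier_of {Q : Set E} (hQcl : IsClosed Q) {x : E} (h1 : x ∈ Q)
    (h2 : x ∉ interior Q) : x ∈ frontier Q := by
  rw [hQcl.frontier_eq]
  exact ⟨h1, h2⟩

lemma refl_interior {Q : Set E} (c : E) (hsym : ∀ x ∈ Q, (2:ℝ) • c - x ∈ Q) {x : E}
    (hx : x ∈ interior Q) : (2:ℝ) • c - x ∈ interior Q := by
  have h1 : {y : E | (2:ℝ) • c - y ∈ interior Q} ⊆ interior Q := by
    apply interior_maximal
    · intro y hy
      have := hsym _ (interior_subset hy)
      simpa using this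
    · exact isOpen_interior.preimage (by fun_prop)
  apply h1
  simpa using hx

lemma refl_frontier {Q : Set E} (hQcl : IsClosed Q) (c : E)
    (hsym : ∀ x ∈ Q, (2:ℝ) • c - x ∈ Q) {x : E}
    (hx : x ∈ frontier Q) : (2:ℝ) • c - x ∈ frontier Q := by
  rw [hQcl.frontier_eq] at hx ⊢
  refine ⟨hsym x hx.1, fun h => hx.2 ?_⟩
  have := refl_interior c hsym h
  simpa using this

/-- The image of a face of `Q` cannot contain two facets of `P` such that every facet of `P`
meets one of them. -/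
lemma no_two {ι : Type*} [Finite ι] (n : ι → E →L[ℝ] ℝ)
    (hsimple : ∀ i, ∃ z, Simple n i z)
    {Q : Set E} (hQcl : IsClosed Q) (hQi : (interior Q).Nonempty)
    (c : E) (hsym : ∀ x ∈ Q, (2:ℝ) • c - x ∈ Q)
    (φ : ↥(frontier (poly n)) ≃ₜ ↥(frontier Q)) (hφ : Refines n φ) (i k : ι)
    (hmeet : ∀ j, ∃ x ∈ poly n, n j x = 1 ∧ (n i x = 1 ∨ n k x = 1))
    {f : E →L[ℝ] ℝ} {M : ℝ} (hfM : ∀ x ∈ Q, f x ≤ M) (hfi : ∀ x ∈ interior Q, f x < M)
    (h1 : ∀ x : ↥(frontier (poly n)), n i (x : E) = 1 → f (φ x) = M)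
    (h2 : ∀ x : ↥(frontier (poly n)), n k (x : E) = 1 → f (φ x) = M)
    {u0 : E} (hu0 : u0 ∈ frontier Q) (hu0M : f u0 = M) {r : ℝ} (hr : 0 < r)
    (hball : ∀ x ∈ frontier Q, dist x u0 < r → f x = M) : False := by
  obtain ⟨o, ho⟩ := hQi
  set M' : ℝ := 2 * f c - M with hM'
  set u1 : E := (2:ℝ) • c - u0 with hu1
  have hu1f : u1 ∈ frontier Q := refl_frontier hQcl c hsym hu0
  have hfu1 : f u1 = M' := by simp [hu1, hM', hu0M]
  have hlow : ∀ x ∈ Q, M' ≤ f x := by
    intro x hx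
    have := hfM _ (hsym x hx)
    simp only [map_sub, map_smul, smul_eq_mul] at this
    rw [hM']; linarith
  have hoM' : M' < f o := by
    have := hfi _ (refl_interior c hsym ho)
    simp only [map_sub, map_smul, smul_eq_mul] at this
    rw [hM']; linarith
  have hMM : M' < M := hoM'.trans (hfi o ho)
  have hball' : ∀ x ∈ frontier Q, dist x u1 < r → f x = M' := by
    intro x hx hd
    have h3 := hball _ (refl_frontier hQcl c hsym hx) (by
      rw [dist_eq_norm] at hd ⊢
      have : (2:ℝ) • c - x - u0 = -(x - u1) := by rw [hu1]; abel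
      rw [this, norm_neg]; exact hd)
    simp only [map_sub, map_smul, smul_eq_mul] at h3
    rw [hM']; linarith
  have hF := exposed_max (Q := Q) (f := -f) (M := -M') (fun x hx => by
      simpa using hlow x hx) (hQcl.frontier_subset hu1f) (by simpa using hfu1)
      (interior_subset ho) (by simpa using hoM')
  -- find a simple point in the preimage of the ball around `u1`
  have hO : {x : ↥(frontier (poly n)) | dist (φ x : E) u1 < r} ∈ 𝓝 (φ.symm ⟨u1, hu1f⟩) := by
    have hc : Tendsto (fun x : ↥(frontier (poly n)) => (φ x : E)) (𝓝 (φ.symm ⟨u1, hu1f⟩))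
        (𝓝 u1) := by
      have := (continuous_subtype_val.comp φ.continuous).tendsto (φ.symm ⟨u1, hu1f⟩)
      simpa [Function.comp_def] using this
    exact hc.eventually (Metric.ball_mem_nhds u1 hr)
  obtain ⟨z2, hz2, j, hj⟩ := dense_simple n hsimple _ hO
  have hz2M : f (φ z2) = M' := hball' _ (φ z2).2 hz2
  obtain ⟨x, hxP, hxj, hxik⟩ := hmeet j
  have hxf : x ∈ frontier (poly n) := (mem_frontier_poly n _).mpr ⟨hxP, j, hxj⟩
  have h4 := lift_face n φ hφ hF hj
    ⟨hQcl.frontier_subset (φ z2).2, by simp [hz2M]⟩ ⟨x, hxf⟩ hxj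
  have h5 : f (φ ⟨x, hxf⟩) = M' := by
    have := h4.2
    simpa using this
  have h6 : f (φ ⟨x, hxf⟩) = M := by
    rcases hxik with h | h
    · exact h1 ⟨x, hxf⟩ h
    · exact h2 ⟨x, hxf⟩ h
  linarith

/-- **Main theorem**: a vertex of `P` lying only on facets of which any two meet (together) all
facets must be mapped to a vertex of `Q`. -/
theorem vertex_forced {ι : Type*} [Finite ι] (n : ι → E →L[ℝ] ℝ)
    (hsimple : ∀ i, ∃ z, Simple n i z)
    {Q : Set E} (hQc : Convex ℝ Q) (hQcl : IsClosed Q) (hQi : (interior Q).Nonempty)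
    (c : E) (hsym : ∀ x ∈ Q, (2:ℝ) • c - x ∈ Q)
    (φ : ↥(frontier (poly n)) ≃ₜ ↥(frontier Q)) (hφ : Refines n φ)
    (v : ↥(frontier (poly n)))
    (huniq : ∀ x ∈ poly n, (∀ i, n i (v : E) = 1 → n i x = 1) → x = v)
    (hmeet : ∀ i k, n i (v : E) = 1 → n k (v : E) = 1 → i ≠ k →
      ∀ j, ∃ x ∈ poly n, n j x = 1 ∧ (n i x = 1 ∨ n k x = 1)) :
    (φ v : E) ∈ Q.extremePoints ℝ := by
  by_contra hne
  have hqQ : (φ v : E) ∈ Q := hQcl.frontier_subset (φ v).2
  rw [mem_extremePoints_iff_left] at hne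
  push Not at hne
  obtain ⟨x1, hx1, x2, hx2, hseg, hx1ne⟩ := hne hqQ
  choose f M hfM hfi hfφ u0 hu0 hu0M r hr hball using
    fun i => facet_data n hsimple hQc hQcl hQi φ hφ i
  obtain ⟨-, i0, hi0⟩ := (mem_frontier_poly n _).mp v.2
  -- all the functionals of facets at `v` are constant on the segment
  have hx1M : ∀ i, n i (v : E) = 1 → f i x1 = M i := by
    intro i hi
    have hq := hfφ i v hi
    obtain ⟨a, b, ha, hb, hab, hcomb⟩ := hseg
    rw [← hcomb] at hq
    simp only [map_add, map_smul, smul_eq_mul] at hq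
    have h1 := hfM i x1 hx1
    have h2 := hfM i x2 hx2
    by_contra h
    have h3 : f i x1 < M i := lt_of_le_of_ne h1 h
    have h4 : a * f i x1 < a * M i := mul_lt_mul_of_pos_left h3 ha
    have h5 : b * f i x2 ≤ b * M i := mul_le_mul_of_nonneg_left h2 hb.le
    have h6 : a * M i + b * M i = M i := by rw [← add_mul, hab, one_mul]
    linarith
  -- the points of the segment
  have hqt : ∀ t ∈ Icc (0:ℝ) 1, (φ v : E) + t • (x1 - φ v) ∈ Q := by
    intro t ht
    exact hQc.add_smul_sub_mem hqQ hx1 ht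
  have hqtM : ∀ t : ℝ, ∀ i, n i (v : E) = 1 → f i ((φ v : E) + t • (x1 - φ v)) = M i := by
    intro t i hi
    simp [hx1M i hi, hfφ i v hi]
  have hqtf : ∀ t ∈ Icc (0:ℝ) 1, (φ v : E) + t • (x1 - φ v) ∈ frontier Q := by
    intro t ht
    refine mem_frontier_of hQcl (hqt t ht) fun h => ?_
    have := hfi i0 _ h
    rw [hqtM t i0 hi0] at this
    exact lt_irrefl _ this
  -- preimages `g t` of these points
  set g : Icc (0:ℝ) 1 → ↥(frontier (poly n)) :=
    fun t => φ.symm ⟨(φ v : E) + (t : ℝ) • (x1 - φ v), hqtf t t.2⟩ with hg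
  have hgc : Continuous g := by
    apply φ.symm.continuous.comp
    apply Continuous.subtype_mk
    fun_prop
  have hg0 : g ⟨0, by simp⟩ = v := by
    simp [hg]
  have hN : ∀ᶠ t in 𝓝 (⟨0, by simp⟩ : Icc (0:ℝ) 1), ∀ j, n j (v : E) ≠ 1 → n j (g t : E) < 1 := by
    rw [eventually_all]
    intro j
    by_cases hj : n j (v : E) = 1
    · exact Eventually.of_forall fun t h => absurd hj h
    · have hlt : n j (g ⟨0, by simp⟩ : E) < 1 := by
        rw [hg0]
        exact lt_of_le_of_ne (((mem_frontier_poly n _).mp v.2).1 j) hj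
      have hc : Tendsto (fun t => n j (g t : E)) (𝓝 (⟨0, by simp⟩ : Icc (0:ℝ) 1))
          (𝓝 (n j (g ⟨0, by simp⟩ : E))) :=
        ((n j).continuous.comp (continuous_subtype_val.comp hgc)).tendsto _
      filter_upwards [hc.eventually (gt_mem_nhds hlt)] with t ht _
      exact ht
  obtain ⟨δ, hδ, hδN⟩ := Metric.eventually_nhds_iff.mp hN
  -- choose `t`
  obtain ⟨t, ht0, ht1, htδ⟩ : ∃ t : ℝ, 0 < t ∧ t ≤ 1 ∧ t < δ :=
    ⟨min 1 (δ / 2), by positivity, min_le_left _ _, by
      refine (min_le_right _ _).trans_lt ?_; linarith⟩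
  have htI : t ∈ Icc (0:ℝ) 1 := ⟨ht0.le, ht1⟩
  have hNt := hδN (y := ⟨t, htI⟩) (by
    rw [Subtype.dist_eq, Real.dist_eq]; simpa [abs_of_pos ht0] using htδ)
  set v' := g ⟨t, htI⟩ with hv'
  have hφv' : (φ v' : E) = (φ v : E) + t • (x1 - φ v) := by simp [hv', hg]
  have hv'ne : (v' : E) ≠ v := by
    intro h
    have h1 : v' = v := Subtype.ext h
    rw [h1] at hφv'
    have h2 : t • (x1 - (φ v : E)) = 0 := by
      have := hφv'.symm
      simpa using this
    rcases smul_eq_zero.mp h2 with h3 | h3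
    · exact ht0.ne' h3
    · exact hx1ne (sub_eq_zero.mp h3)
  -- a facet at `v` not containing `v'`
  obtain ⟨i, hiv, hiv'⟩ : ∃ i, n i (v : E) = 1 ∧ n i (v' : E) ≠ 1 := by
    by_contra h
    push Not at h
    exact hv'ne (huniq v' ((mem_frontier_poly n _).mp v'.2).1 h)
  have hiv'lt : n i (v' : E) < 1 :=
    lt_of_le_of_ne (((mem_frontier_poly n _).mp v'.2).1 i) hiv'
  have hφv'M : f i (φ v') = M i := by rw [hφv']; exact hqtM t i hiv
  -- points of the face near `φ v'` in the relative interior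
  obtain ⟨o, ho⟩ := hQi
  have hφv'Q : (φ v' : E) ∈ Q := hQcl.frontier_subset (φ v').2
  have hu0Q : u0 i ∈ Q := hQcl.frontier_subset (hu0 i)
  have hspread := fun (s : ℝ) (hs0 : 0 < s) (hs1 : s ≤ 1) =>
    spread_face hQc hQcl (hfM i) ho (hfi i o ho) hu0Q (hu0M i) (hr i) (hball i) hφv'Q hφv'M hs0 hs1
  have hwf : ∀ s ∈ Icc (0:ℝ) 1, (φ v' : E) + s • (u0 i - φ v') ∈ frontier Q := by
    intro s hs
    refine mem_frontier_of hQcl (hQc.add_smul_sub_mem hφv'Q hu0Q hs) fun h => ?_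
    have := hfi i _ h
    simp only [map_add, map_smul, map_sub, smul_eq_mul, hφv'M, hu0M i] at this
    simp at this
  set w : Icc (0:ℝ) 1 → ↥(frontier (poly n)) :=
    fun s => φ.symm ⟨(φ v' : E) + (s : ℝ) • (u0 i - φ v'), hwf s s.2⟩ with hw
  have hwc : Continuous w := by
    apply φ.symm.continuous.comp
    apply Continuous.subtype_mk
    fun_prop
  have hw0 : w ⟨0, by simp⟩ = v' := by
    simp [hw]
  have hN2 : ∀ᶠ s in 𝓝 (⟨0, by simp⟩ : Icc (0:ℝ) 1),
      (∀ j, n j (v : E) ≠ 1 → n j (w s : E) < 1) ∧ n i (w s : E) < 1 := by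
    refine Filter.Eventually.and ?_ ?_
    · rw [eventually_all]
      intro j
      by_cases hj : n j (v : E) = 1
      · exact Eventually.of_forall fun t h => absurd hj h
      · have hlt : n j (w ⟨0, by simp⟩ : E) < 1 := by
          rw [hw0]
          exact hNt j hj
        have hc : Tendsto (fun t => n j (w t : E)) (𝓝 (⟨0, by simp⟩ : Icc (0:ℝ) 1))
            (𝓝 (n j (w ⟨0, by simp⟩ : E))) :=
          ((n j).continuous.comp (continuous_subtype_val.comp hwc)).tendsto _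
        filter_upwards [hc.eventually (gt_mem_nhds hlt)] with t ht _
        exact ht
    · have hlt : n i (w ⟨0, by simp⟩ : E) < 1 := by
        rw [hw0]; exact hiv'lt
      have hc : Tendsto (fun t => n i (w t : E)) (𝓝 (⟨0, by simp⟩ : Icc (0:ℝ) 1))
          (𝓝 (n i (w ⟨0, by simp⟩ : E))) :=
        ((n i).continuous.comp (continuous_subtype_val.comp hwc)).tendsto _
      exact hc.eventually (gt_mem_nhds hlt)
  obtain ⟨δ2, hδ2, hδN2⟩ := Metric.eventually_nhds_iff.mp hN2
  obtain ⟨s, hs0, hs1, hsδ⟩ : ∃ s : ℝ, 0 < s ∧ s ≤ 1 ∧ s < δ2 :=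
    ⟨min 1 (δ2 / 2), by positivity, min_le_left _ _, by
      refine (min_le_right _ _).trans_lt ?_; linarith⟩
  have hsI : s ∈ Icc (0:ℝ) 1 := ⟨hs0.le, hs1⟩
  have hNs := hδN2 (y := ⟨s, hsI⟩) (by
    rw [Subtype.dist_eq, Real.dist_eq]; simpa [abs_of_pos hs0] using hsδ)
  set v2 := w ⟨s, hsI⟩ with hv2
  have hφv2 : (φ v2 : E) = (φ v' : E) + s • (u0 i - φ v') := by simp [hv2, hw]
  -- a neighbourhood of `v2`
  have hO : {x : ↥(frontier (poly n)) | f i (φ x) = M i ∧
      (∀ j, n j (v : E) ≠ 1 → n j (x : E) < 1) ∧ n i (x : E) < 1} ∈ 𝓝 v2 := by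
    have hA : ∀ᶠ x : ↥(frontier (poly n)) in 𝓝 v2, f i (φ x) = M i := by
      have hc : Tendsto (fun x : ↥(frontier (poly n)) => (φ x : E)) (𝓝 v2)
          (𝓝 (φ v2 : E)) :=
        (continuous_subtype_val.comp φ.continuous).tendsto v2
      filter_upwards [hc.eventually (Metric.ball_mem_nhds _ (mul_pos hs0 (hr i)))] with x hx
      apply hspread s hs0 hs1 _ (φ x).2
      rw [← hφv2]
      exact hx
    have hB : ∀ᶠ x : ↥(frontier (poly n)) in 𝓝 v2, ∀ j, n j (v : E) ≠ 1 → n j (x : E) < 1 := by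
      rw [eventually_all]
      intro j
      by_cases hj : n j (v : E) = 1
      · exact Eventually.of_forall fun t h => absurd hj h
      · have hc : Tendsto (fun x : ↥(frontier (poly n)) => n j (x : E)) (𝓝 v2)
            (𝓝 (n j (v2 : E))) :=
          ((n j).continuous.comp continuous_subtype_val).tendsto _
        filter_upwards [hc.eventually (gt_mem_nhds (hNs.1 j hj))] with t ht _
        exact ht
    have hC : ∀ᶠ x : ↥(frontier (poly n)) in 𝓝 v2, n i (x : E) < 1 := by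
      have hc : Tendsto (fun x : ↥(frontier (poly n)) => n i (x : E)) (𝓝 v2)
          (𝓝 (n i (v2 : E))) :=
        ((n i).continuous.comp continuous_subtype_val).tendsto _
      exact hc.eventually (gt_mem_nhds hNs.2)
    filter_upwards [hA, hB, hC] with x h1 h2 h3
    exact ⟨h1, h2, h3⟩
  obtain ⟨z3, ⟨hz3a, hz3b, hz3c⟩, k, hk⟩ := dense_simple n hsimple v2 hO
  have hkv : n k (v : E) = 1 := by
    by_contra h
    exact (hz3b k h).ne hk.1
  have hik : i ≠ k := by
    rintro rfl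
    exact hz3c.ne hk.1
  have hF := exposed_max (hfM i) hu0Q (hu0M i) (interior_subset ho) (hfi i o ho)
  have hkM : ∀ x : ↥(frontier (poly n)), n k (x : E) = 1 → f i (φ x) = M i := by
    intro x hx
    exact (lift_face n φ hφ hF hk ⟨hQcl.frontier_subset (φ z3).2, hz3a⟩ x hx).2
  exact no_two n hsimple hQcl ⟨o, ho⟩ c hsym φ hφ i k (hmeet i k hiv hkv hik) (hfM i) (hfi i)
    (hfφ i) hkM (hu0 i) (hu0M i) (hr i) (hball i)

lemma finite_extreme {ι : Type*} [Finite ι] (n : ι → E →L[ℝ] ℝ) :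
    ((poly n).extremePoints ℝ).Finite := by
  apply Set.Finite.of_injOn (f := fun x => {i | n i x = 1}) (t := Set.univ)
    (fun _ _ => Set.mem_univ _) ?_ Set.finite_univ
  intro x hx y hy hxy
  have hxy' : ∀ i, n i x = 1 ↔ n i y = 1 := fun i => by
    have := Set.ext_iff.mp hxy i
    simpa using this
  have hev : ∀ᶠ t : ℝ in 𝓝 0, ∀ j, n j (x + t • (x - y)) ≤ 1 := by
    rw [eventually_all]
    intro j
    by_cases hj : n j x = 1
    · refine Eventually.of_forall fun t => ?_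
      simp only [map_add, map_smul, map_sub, smul_eq_mul, hj, (hxy' j).mp hj]
      simp
    · have hlt : n j x < 1 := lt_of_le_of_ne (hx.1 j) hj
      have hc : Tendsto (fun t : ℝ => n j (x + t • (x - y))) (𝓝 0) (𝓝 (n j x)) := by
        have : Tendsto (fun t : ℝ => n j (x + t • (x - y))) (𝓝 0)
            (𝓝 (n j (x + (0:ℝ) • (x - y)))) := by
          apply Continuous.tendsto; fun_prop
        simpa only [zero_smul, add_zero] using this
      filter_upwards [hc.eventually (gt_mem_nhds hlt)] with t ht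
      exact ht.le
  obtain ⟨δ, hδ, hδ2⟩ := Metric.eventually_nhds_iff.mp hev
  have h1 : x + (δ / 2) • (x - y) ∈ poly n := hδ2 (by
    rw [Real.dist_eq, sub_zero, abs_of_pos (by linarith)]; linarith)
  have h2 : x + (-(δ / 2)) • (x - y) ∈ poly n := hδ2 (by
    rw [Real.dist_eq, sub_zero, abs_neg, abs_of_pos (by linarith)]; linarith)
  have hseg : x ∈ openSegment ℝ (x + (δ / 2) • (x - y)) (x + (-(δ / 2)) • (x - y)) := by
    refine ⟨1/2, 1/2, by norm_num, by norm_num, by norm_num, ?_⟩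
    module
  have h3 := (mem_extremePoints_iff_left.mp hx).2 _ h1 _ h2 hseg
  have h4 : (δ / 2) • (x - y) = 0 := by simpa using h3
  rcases smul_eq_zero.mp h4 with h5 | h5
  · linarith
  · exact sub_eq_zero.mp h5

lemma poly_eq_convexHull {ι : Type*} [Finite ι] (n : ι → E →L[ℝ] ℝ)
    (hcomp : IsCompact (poly n)) :
    ∃ S : Finset E, poly n = convexHull ℝ (S : Set E) := by
  have hfin := finite_extreme n
  refine ⟨hfin.toFinset, ?_⟩
  rw [hfin.coe_toFinset]
  have h1 := closure_convexHull_extremePoints hcomp (convex_poly n)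
  rw [(hfin.isClosed_convexHull (𝕜 := ℝ)).closure_eq] at h1
  exact h1.symm

/-! ### The concrete polytopes -/

/-- signs -/
def sg : Bool → ℝ
  | true => 1
  | false => -1

/-- the coordinate used by the index `k` -/
def pr (k : ℕ) : Fin 4 := if k % 2 = 0 then 0 else 1

abbrev E4 := EuclideanSpace ℝ (Fin 4)

/-- the linear functional `(c - k^2) x_2 + k x_3` with `c = M^2 + 1` -/
noncomputable def vl (M : ℕ) (k : ℕ) : E4 →L[ℝ] ℝ :=
  ((M:ℝ)^2 + 1 - (k:ℝ)^2) • EuclideanSpace.proj (2 : Fin 4) + (k:ℝ) • EuclideanSpace.proj (3 : Fin 4)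

lemma vl_apply (M k : ℕ) (x : E4) :
    vl M k x = ((M:ℝ)^2 + 1 - (k:ℝ)^2) * x 2 + (k:ℝ) * x 3 := by
  simp [vl]

/-- the normals of the facets -/
noncomputable def nn (M : ℕ) (i : Bool × Bool × Fin (M + 1)) : E4 →L[ℝ] ℝ :=
  sg i.1 • EuclideanSpace.proj (pr i.2.2) + sg i.2.1 • vl M i.2.2

lemma nn_apply (M : ℕ) (i : Bool × Bool × Fin (M + 1)) (x : E4) :
    nn M i x = sg i.1 * x (pr i.2.2) + sg i.2.1 * vl M i.2.2 x := by
  simp [nn]

lemma sg_cases (s : Bool) : sg s = 1 ∨ sg s = -1 := by cases s <;> simp [sg]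

lemma sg_sq (s : Bool) : sg s * sg s = 1 := by cases s <;> simp [sg]

lemma pr_cases (k : ℕ) : pr k = 0 ∨ pr k = 1 := by
  unfold pr; split_ifs <;> simp

/-- `(a, b, p, q)` -/
noncomputable def mk4 (a b p q : ℝ) : E4 := !₂[a, b, p, q]

@[simp] lemma mk4_0 (a b p q : ℝ) : mk4 a b p q 0 = a := by simp [mk4]
@[simp] lemma mk4_1 (a b p q : ℝ) : mk4 a b p q 1 = b := by simp [mk4]
@[simp] lemma mk4_2 (a b p q : ℝ) : mk4 a b p q 2 = p := by simp [mk4]
@[simp] lemma mk4_3 (a b p q : ℝ) : mk4 a b p q 3 = q := by simp [mk4]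

/-- simple points -/
lemma nn_simple (M : ℕ) (i : Bool × Bool × Fin (M + 1)) : ∃ z, Simple (nn M) i z := by
  obtain ⟨s, σ, k⟩ := i
  have hkM : ((k : ℕ) : ℝ) ≤ M := by exact_mod_cast Nat.lt_succ_iff.mp k.2
  have hk0 : (0:ℝ) ≤ ((k:ℕ):ℝ) := Nat.cast_nonneg _
  have hM0 : (0:ℝ) ≤ (M:ℝ) := Nat.cast_nonneg _
  set μ : ℝ := (M:ℝ)^2 + 1 + ((k:ℕ):ℝ)^2 with hμ
  have hμ0 : 0 < μ := by positivity
  refine ⟨mk4 (if pr k = 0 then sg s / 2 else 0) (if pr k = 0 then 0 else sg s / 2)
    (sg σ / (2 * μ)) (sg σ * (2 * k) / (2 * μ)), ?_⟩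
  have hval : ∀ j : ℕ, vl M j (mk4 (if pr k = 0 then sg s / 2 else 0)
      (if pr k = 0 then 0 else sg s / 2)
      (sg σ / (2 * μ)) (sg σ * (2 * k) / (2 * μ))) =
      sg σ * ((μ - ((k:ℕ) - (j:ℝ))^2) / (2 * μ)) := by
    intro j
    rw [vl_apply, mk4_2, mk4_3]
    field_simp
    rw [hμ]; ring
  constructor
  · rw [nn_apply]
    simp only
    rw [hval]
    rcases pr_cases k with h | h
    · rw [h]
      simp only [if_true, mk4_0]
      have h1 := sg_sq s
      have h2 := sg_sq σ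
      have h3 : (μ - (((k:ℕ):ℝ) - ((k:ℕ):ℝ))^2) / (2 * μ) = 1 / 2 := by
        rw [sub_self]; field_simp; ring
      rw [h3]
      nlinarith
    · rw [h]
      have h10 : (1 : Fin 4) ≠ 0 := by decide
      simp only [h10, if_false, mk4_1]
      have h1 := sg_sq s
      have h2 := sg_sq σ
      have h3 : (μ - (((k:ℕ):ℝ) - ((k:ℕ):ℝ))^2) / (2 * μ) = 1 / 2 := by
        rw [sub_self]; field_simp; ring
      rw [h3]
      nlinarith
  · rintro ⟨s', σ', j⟩ hne
    rw [nn_apply]
    simp only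
    rw [hval]
    have hjM : ((j : ℕ) : ℝ) ≤ M := by exact_mod_cast Nat.lt_succ_iff.mp j.2
    have hj0 : (0:ℝ) ≤ ((j:ℕ):ℝ) := Nat.cast_nonneg _
    set ρ : ℝ := (μ - (((k:ℕ):ℝ) - ((j:ℕ):ℝ))^2) / (2 * μ) with hρ
    have hρpos : 0 < ρ := by
      rw [hρ]
      apply div_pos _ (by positivity)
      rw [hμ]; nlinarith
    have hρle : ρ ≤ 1 / 2 := by
      rw [hρ, div_le_div_iff₀ (by positivity) (by norm_num)]
      nlinarith [sq_nonneg (((k:ℕ):ℝ) - ((j:ℕ):ℝ))]
    have hρlt : (k : ℕ) ≠ j → ρ < 1 / 2 := by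
      intro hkj
      have : 0 < (((k:ℕ):ℝ) - ((j:ℕ):ℝ))^2 := by
        apply sq_pos_of_ne_zero
        rw [sub_ne_zero]
        exact_mod_cast hkj
      rw [hρ, div_lt_div_iff₀ (by positivity) (by norm_num)]
      nlinarith
    by_cases hp : pr k = pr j
    · -- same coordinate
      have hx : (mk4 (if pr k = 0 then sg s / 2 else 0) (if pr k = 0 then 0 else sg s / 2)
          (sg σ / (2 * μ)) (sg σ * (2 * k) / (2 * μ))) (pr j) = sg s / 2 := by
        rw [← hp]
        rcases pr_cases k with h | h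
        · rw [h]; simp
        · rw [h]; simp
      rw [hx]
      by_cases hs : s' = s
      · by_cases hσ : σ' = σ
        · have hkj : (k:ℕ) ≠ j := by
            intro h
            apply hne
            rw [hs, hσ, Fin.ext h]
          have := hρlt hkj
          subst hs hσ
          have h1 := sg_sq s'
          have h2 := sg_sq σ'
          nlinarith
        · have h1 : sg σ' * sg σ = -1 := by
            cases σ <;> cases σ' <;> simp [sg] at *
          subst hs
          have h2 := sg_sq s'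
          nlinarith
      · have h1 : sg s' * sg s = -1 := by
          cases s <;> cases s' <;> simp [sg] at *
        rcases sg_cases σ with h2 | h2 <;> rcases sg_cases σ' with h3 | h3 <;>
          rw [h2, h3] <;> nlinarith
    · have hx : (mk4 (if pr k = 0 then sg s / 2 else 0) (if pr k = 0 then 0 else sg s / 2)
          (sg σ / (2 * μ)) (sg σ * (2 * k) / (2 * μ))) (pr j) = 0 := by
        rcases pr_cases k with h | h <;> rcases pr_cases j with h' | h'
        · exact absurd (h.trans h'.symm) hp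
        · rw [h, h']; simp
        · rw [h, h']; simp
        · exact absurd (h.trans h'.symm) hp
      rw [hx]
      rcases sg_cases σ with h2 | h2 <;> rcases sg_cases σ' with h3 | h3 <;>
          rw [h2, h3] <;> nlinarith

/-- the forced vertices -/
noncomputable def vk (M k : ℕ) : E4 :=
  mk4 0 0 (1 / ((M:ℝ)^2 + 1 + k * (k + 1))) ((2 * k + 1) / ((M:ℝ)^2 + 1 + k * (k + 1)))

lemma vk_coord (M k j : ℕ) : vk M k (pr j) = 0 := by
  rcases pr_cases j with h | h <;> rw [h] <;> simp [vk]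

lemma vl_vk (M k j : ℕ) : vl M j (vk M k) =
    1 - ((j:ℝ) - k) * ((j:ℝ) - k - 1) / ((M:ℝ)^2 + 1 + k * (k + 1)) := by
  have h : (0:ℝ) < (M:ℝ)^2 + 1 + k * (k + 1) := by positivity
  rw [vl_apply, vk, mk4_2, mk4_3]
  field_simp
  ring

lemma prod_nonneg_int (j k : ℕ) : (0:ℝ) ≤ ((j:ℝ) - k) * ((j:ℝ) - k - 1) := by
  rcases Nat.lt_or_ge k j with h | h
  · have h1 : (k:ℝ) + 1 ≤ j := by exact_mod_cast h
    apply mul_nonneg <;> linarith
  · have h1 : (j:ℝ) ≤ k := by exact_mod_cast h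
    nlinarith

lemma prod_pos_int (j k : ℕ) (h1 : j ≠ k) (h2 : j ≠ k + 1) :
    (0:ℝ) < ((j:ℝ) - k) * ((j:ℝ) - k - 1) := by
  rcases Nat.lt_or_ge k j with h | h
  · have h3 : k + 1 < j := by omega
    have h4 : (k:ℝ) + 1 < j := by exact_mod_cast h3
    apply mul_pos <;> linarith
  · have h3 : j < k := by omega
    have h4 : (j:ℝ) < k := by exact_mod_cast h3
    nlinarith

lemma vl_vk_le (M k j : ℕ) : vl M j (vk M k) ≤ 1 := by
  rw [vl_vk]
  have h : (0:ℝ) < (M:ℝ)^2 + 1 + k * (k + 1) := by positivity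
  have := div_nonneg (prod_nonneg_int j k) h.le
  linarith

lemma vl_vk_pos (M k j : ℕ) (hj : j ≤ M) : 0 < vl M j (vk M k) := by
  have h : (0:ℝ) < (M:ℝ)^2 + 1 + k * (k + 1) := by positivity
  rw [vl_vk, sub_pos, div_lt_one h]
  have h1 : (j:ℝ) ≤ M := by exact_mod_cast hj
  have h2 : (0:ℝ) ≤ j := Nat.cast_nonneg _
  have h3 : (0:ℝ) ≤ k := Nat.cast_nonneg _
  nlinarith [mul_nonneg h2 h3]

lemma vk_mem (M k : ℕ) : vk M k ∈ poly (nn M) := by
  rintro ⟨s, σ, j⟩
  rw [nn_apply]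
  simp only
  rw [vk_coord, mul_zero, zero_add]
  have h1 := vl_vk_le M k j
  have h2 := vl_vk_pos M k j (Nat.lt_succ_iff.mp j.2)
  rcases sg_cases σ with h | h <;> rw [h] <;> linarith

lemma nn_vk (M k : ℕ) (s σ : Bool) (j : Fin (M + 1)) :
    nn M (s, σ, j) (vk M k) = 1 ↔ σ = true ∧ ((j : ℕ) = k ∨ (j : ℕ) = k + 1) := by
  rw [nn_apply]
  simp only
  rw [vk_coord, mul_zero, zero_add]
  have h2 := vl_vk_pos M k j (Nat.lt_succ_iff.mp j.2)
  constructor
  · intro h
    cases σ with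
    | false => simp only [sg] at h; linarith
    | true =>
      refine ⟨rfl, ?_⟩
      by_contra hno
      push Not at hno
      have h3 := prod_pos_int (j:ℕ) k hno.1 hno.2
      have h4 : (0:ℝ) < (M:ℝ)^2 + 1 + k * (k + 1) := by positivity
      have h5 := div_pos h3 h4
      simp only [sg, one_mul] at h
      rw [vl_vk] at h
      linarith
  · rintro ⟨rfl, hj⟩
    simp only [sg, one_mul]
    rw [vl_vk]
    rcases hj with h | h
    · rw [h]; simp
    · rw [h]; push_cast; simp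

lemma vk_uniq (M k : ℕ) (hk : k < M) (x : E4)
    (hall : ∀ i, nn M i (vk M k) = 1 → nn M i x = 1) : x = vk M k := by
  have e : ∀ s j, ((j : Fin (M+1)) : ℕ) = k ∨ (j : ℕ) = k + 1 →
      sg s * x (pr j) + vl M j x = 1 := by
    intro s j hj
    have := hall (s, true, j) ((nn_vk M k s true j).mpr ⟨rfl, hj⟩)
    rw [nn_apply] at this
    simpa [sg] using this
  have a1 := e true ⟨k, by omega⟩ (Or.inl rfl)
  have a2 := e false ⟨k, by omega⟩ (Or.inl rfl)
  have b1 := e true ⟨k + 1, by omega⟩ (Or.inr rfl)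
  have b2 := e false ⟨k + 1, by omega⟩ (Or.inr rfl)
  simp only [sg, one_mul, neg_mul, one_mul] at a1 a2 b1 b2
  have hxa : x (pr k) = 0 := by linarith
  have hxb : x (pr (k+1)) = 0 := by linarith
  have hva : vl M k x = 1 := by linarith
  have hvb : vl M (k+1) x = 1 := by linarith
  have h01 : x 0 = 0 ∧ x 1 = 0 := by
    unfold pr at hxa hxb
    rcases Nat.mod_two_eq_zero_or_one k with h | h
    · have h' : (k+1) % 2 = 1 := by omega
      simp [h] at hxa
      simp [h'] at hxb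
      exact ⟨hxa, hxb⟩
    · have h' : (k+1) % 2 = 0 := by omega
      simp [h] at hxa
      simp [h'] at hxb
      exact ⟨hxb, hxa⟩
  rw [vl_apply] at hva hvb
  push_cast at hvb
  have hν : (0:ℝ) < (M:ℝ)^2 + 1 + k * (k + 1) := by positivity
  have hx3 : x 3 = (2 * k + 1) * x 2 := by linarith
  have hx2 : x 2 = 1 / ((M:ℝ)^2 + 1 + k * (k + 1)) := by
    rw [hx3] at hva
    rw [eq_div_iff hν.ne']
    linarith
  ext i
  fin_cases i
  · simpa [vk] using h01.1
  · simpa [vk] using h01.2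
  · simpa [vk] using hx2
  · have : x 3 = (2 * k + 1) / ((M:ℝ)^2 + 1 + k * (k + 1)) := by
      rw [hx3, hx2]; ring
    simpa [vk] using this

/-- the special points -/
noncomputable def sp (a b : Bool) : E4 := mk4 (sg a) (sg b) 0 0

lemma vl_sp (M j : ℕ) (a b : Bool) : vl M j (sp a b) = 0 := by
  rw [vl_apply]; simp [sp]

lemma sp_mem (M : ℕ) (a b : Bool) : sp a b ∈ poly (nn M) := by
  rintro ⟨s, σ, j⟩
  rw [nn_apply]
  simp only
  rw [vl_sp, mul_zero, add_zero]
  rcases pr_cases j with h | h <;> rw [h] <;> simp only [sp, mk4_0, mk4_1]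
  · rcases sg_cases s with h1 | h1 <;> rcases sg_cases a with h2 | h2 <;> rw [h1, h2] <;> norm_num
  · rcases sg_cases s with h1 | h1 <;> rcases sg_cases b with h2 | h2 <;> rw [h1, h2] <;> norm_num

lemma meet_aux (M : ℕ) (i j : Bool × Bool × Fin (M + 1))
    (h : pr i.2.2 ≠ pr j.2.2 ∨ i.1 = j.1) :
    ∃ x ∈ poly (nn M), nn M i x = 1 ∧ nn M j x = 1 := by
  obtain ⟨s, σ, k⟩ := i
  obtain ⟨s', σ', k'⟩ := j
  simp only at h
  have h10 : (1 : Fin 4) ≠ 0 := by decide
  rcases pr_cases k with hk | hk <;> rcases pr_cases k' with hk' | hk'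
  · have hs : s = s' := by
      rcases h with h | h
      · exact absurd (hk.trans hk'.symm) h
      · exact h
    subst hs
    refine ⟨sp s s, sp_mem M _ _, ?_, ?_⟩
    · rw [nn_apply]; simp only; rw [vl_sp, hk]; simp [sp, sg_sq]
    · rw [nn_apply]; simp only; rw [vl_sp, hk']; simp [sp, sg_sq]
  · refine ⟨sp s s', sp_mem M _ _, ?_, ?_⟩
    · rw [nn_apply]; simp only; rw [vl_sp, hk]; simp [sp, sg_sq]
    · rw [nn_apply]; simp only; rw [vl_sp, hk']; simp [sp, sg_sq]
  · refine ⟨sp s' s, sp_mem M _ _, ?_, ?_⟩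
    · rw [nn_apply]; simp only; rw [vl_sp, hk]; simp [sp, sg_sq]
    · rw [nn_apply]; simp only; rw [vl_sp, hk']; simp [sp, sg_sq]
  · have hs : s = s' := by
      rcases h with h | h
      · exact absurd (hk.trans hk'.symm) h
      · exact h
    subst hs
    refine ⟨sp s s, sp_mem M _ _, ?_, ?_⟩
    · rw [nn_apply]; simp only; rw [vl_sp, hk]; simp [sp, sg_sq]
    · rw [nn_apply]; simp only; rw [vl_sp, hk']; simp [sp, sg_sq]

lemma vk_meet (M k : ℕ) (i l : Bool × Bool × Fin (M + 1))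
    (hi : nn M i (vk M k) = 1) (hl : nn M l (vk M k) = 1) (hil : i ≠ l)
    (j : Bool × Bool × Fin (M + 1)) :
    ∃ x ∈ poly (nn M), nn M j x = 1 ∧ (nn M i x = 1 ∨ nn M l x = 1) := by
  obtain ⟨s1, σ1, k1⟩ := i
  obtain ⟨s2, σ2, k2⟩ := l
  obtain ⟨s0, σ0, k0⟩ := j
  obtain ⟨hσ1, hk1⟩ := (nn_vk M k s1 σ1 k1).mp hi
  obtain ⟨hσ2, hk2⟩ := (nn_vk M k s2 σ2 k2).mp hl
  subst hσ1 hσ2
  by_cases h1 : pr k0 ≠ pr k1 ∨ s0 = s1
  · obtain ⟨x, hx, hx1, hx2⟩ := meet_aux M (s0, σ0, k0) (s1, true, k1) h1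
    exact ⟨x, hx, hx1, Or.inl hx2⟩
  · push Not at h1
    have h2 : pr k0 ≠ pr k2 ∨ s0 = s2 := by
      by_cases h3 : pr k0 = pr k2
      · right
        have h4 : pr k1 = pr k2 := h1.1.symm.trans h3
        have h5 : (k1 : ℕ) = k2 := by
          unfold pr at h4
          rcases hk1 with h | h <;> rcases hk2 with h' | h' <;> rw [h, h'] at h4 ⊢
          · exfalso
            rcases Nat.mod_two_eq_zero_or_one k with h6 | h6
            · have h7 : (k+1) % 2 = 1 := by omega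
              simp [h6, h7] at h4
            · have h7 : (k+1) % 2 = 0 := by omega
              simp [h6, h7] at h4
          · exfalso
            rcases Nat.mod_two_eq_zero_or_one k with h6 | h6
            · have h7 : (k+1) % 2 = 1 := by omega
              simp [h6, h7] at h4
            · have h7 : (k+1) % 2 = 0 := by omega
              simp [h6, h7] at h4
        have h6 : s1 ≠ s2 := by
          rintro rfl
          exact hil (by rw [Fin.ext h5])
        have h7 := h1.2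
        cases s0 <;> cases s1 <;> cases s2 <;> simp_all
      · exact Or.inl h3
    obtain ⟨x, hx, hx1, hx2⟩ := meet_aux M (s0, σ0, k0) (s2, true, k2) h2
    exact ⟨x, hx, hx1, Or.inr hx2⟩

lemma poly_compact (M : ℕ) (hM : 1 ≤ M) : IsCompact (poly (nn M)) := by
  apply Metric.isCompact_of_isClosed_isBounded (isClosed_poly _)
  rw [Metric.isBounded_iff_subset_closedBall (0 : E4)]
  refine ⟨4, ?_⟩
  intro x hx
  rw [mem_closedBall_zero_iff]
  have g : ∀ s σ k, sg s * x (pr (k : Fin (M+1))) + sg σ * vl M k x ≤ 1 := by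
    intro s σ k
    have := hx (s, σ, k)
    rwa [nn_apply] at this
  have hMr : (1:ℝ) ≤ M := by exact_mod_cast hM
  have p0 : pr ((⟨0, by omega⟩ : Fin (M+1)) : ℕ) = 0 := by simp [pr]
  have p1 : pr ((⟨1, by omega⟩ : Fin (M+1)) : ℕ) = 1 := by simp [pr]
  have a1 := g true true ⟨0, by omega⟩
  have a2 := g true false ⟨0, by omega⟩
  have a3 := g false true ⟨0, by omega⟩
  have a4 := g false false ⟨0, by omega⟩
  have b1 := g true true ⟨1, by omega⟩
  have b2 := g true false ⟨1, by omega⟩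
  have b3 := g false true ⟨1, by omega⟩
  have b4 := g false false ⟨1, by omega⟩
  rw [p0, vl_apply] at a1 a2 a3 a4
  rw [p1, vl_apply] at b1 b2 b3 b4
  simp only [sg, Nat.cast_zero, Nat.cast_one] at a1 a2 a3 a4 b1 b2 b3 b4
  have c0 : |x 0| ≤ 1 := abs_le.mpr ⟨by linarith, by linarith⟩
  have c1 : |x 1| ≤ 1 := abs_le.mpr ⟨by linarith, by linarith⟩
  have hc : (1:ℝ) ≤ (M:ℝ)^2 := by nlinarith
  have c2' : |((M:ℝ)^2 + 1) * x 2| ≤ 1 := abs_le.mpr ⟨by linarith, by linarith⟩
  have c2 : |x 2| ≤ 1 := by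
    rw [abs_mul, abs_of_pos (by positivity)] at c2'
    nlinarith [abs_nonneg (x 2)]
  have c3' : |(M:ℝ)^2 * x 2 + x 3| ≤ 1 := abs_le.mpr ⟨by linarith, by linarith⟩
  have c3'' : |(M:ℝ)^2 * x 2| ≤ 1 := by
    rw [abs_mul, abs_of_pos (by positivity)] at c2' ⊢
    nlinarith [abs_nonneg (x 2)]
  have c3 : |x 3| ≤ 2 := by
    have e := abs_le.mp c3'
    have e' := abs_le.mp c3''
    exact abs_le.mpr ⟨by linarith, by linarith⟩
  rw [EuclideanSpace.norm_eq, Real.sqrt_le_left (by norm_num)]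
  simp only [Fin.sum_univ_four, Real.norm_eq_abs]
  nlinarith [abs_nonneg (x 0), abs_nonneg (x 1), abs_nonneg (x 2), abs_nonneg (x 3)]

lemma poly_symm (M : ℕ) : ∀ x ∈ poly (nn M), (2:ℝ) • (0 : E4) - x ∈ poly (nn M) := by
  intro x hx
  rw [smul_zero, zero_sub]
  rintro ⟨s, σ, k⟩
  have h := hx (!s, !σ, k)
  rw [nn_apply] at h ⊢
  simp only [map_neg, PiLp.neg_apply] at h ⊢
  cases s <;> cases σ <;> simp only [sg, Bool.not_true, Bool.not_false] at h ⊢ <;> linarith

lemma zero_mem_interior (M : ℕ) : (0 : E4) ∈ interior (poly (nn M)) := by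
  rw [interior_poly]
  intro i
  simp

lemma vk_injOn (M k l : ℕ) (hk : k < M) (h : vk M k = vk M l) : k = l := by
  by_contra hne
  have hk' : nn M (true, true, ⟨k, by omega⟩) (vk M k) = 1 :=
    (nn_vk M k true true ⟨k, by omega⟩).mpr ⟨rfl, Or.inl rfl⟩
  have hk'' : nn M (true, true, ⟨k + 1, by omega⟩) (vk M k) = 1 :=
    (nn_vk M k true true ⟨k + 1, by omega⟩).mpr ⟨rfl, Or.inr rfl⟩
  rw [h] at hk' hk''
  have e1 := ((nn_vk M l true true ⟨k, by omega⟩).mp hk').2
  have e2 := ((nn_vk M l true true ⟨k + 1, by omega⟩).mp hk'').2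
  simp only at e1 e2
  omega

end Pool.Agent.Helper447.CSRef
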