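import Mathlib
import Pool.Agent.Helper447.DiracBase

namespace Pool.Agent.Helper447.Dirac

lemma Cov.mono {T T' : Finset (ℤ × ℤ × ℤ)} {p : ℤ × ℤ × ℤ} {n : ℕ} (h : Cov T p n)
    (hT : ∀ q ∈ T', q ∈ T) : Cov T' p n := by
  obtain ⟨Λ, h1, h2, h3⟩ := h
  exact ⟨Λ, h1, h2, fun q hq hqp => h3 q (hT q hq) hqp⟩

/-! ## Points in the middle of the long rows -/

lemma core_A (K t s x0 : ℤ) (n : ℕ) (ht : 0 ≤ t) (hx1 : -(K - s) ≤ x0) (hx2 : x0 ≤ K - s)
    (h1 : 2 * (3 * K - 3 * s + 3 * t + 3) < n) (h2 : 2 * (3 * K - s + t + 3) < n) (hs : 0 ≤ s) :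
    Cov (T6 K K K t t t) (x0, 1, 0) n := by
  apply cover_row (T6 K K K t t t) (x0, 1, 0) (1, -x0, 0) (0, 0, 1) n 2
    [(0, min (min (-K) (-K - x0)) (min (x0 - t) (-2 * x0 - t)),
      max (max K (K - x0)) (max (x0 + t) (-2 * x0 + t))),
      (1, (-t - x0) / 2, (t - x0 - 1) / 2)]
    (by norm_num) (by norm_num) rfl (by simp) (by simp only [dot]; ring) (by simp only [dot]; ring)
  · simp only [List.map_cons, List.map_nil, List.sum_cons, List.sum_nil]; omega
  · intro q hq hqp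
    rw [mem_T6] at hq
    rcases hq with rfl | ⟨x, h1, h2, rfl⟩ | ⟨x, h1, h2, rfl⟩ | ⟨x, h1, h2, rfl⟩ | ⟨x, h1, h2, rfl⟩ |
      ⟨x, h1, h2, rfl⟩ | ⟨x, h1, h2, rfl⟩
    · left; simp [dot]
    · left; simp [dot]
    · right; refine ⟨2 * (x + 0 * x0), ?_, ?_⟩
      · simp only [dot]; ring
      · simp only [List.mem_cons, List.not_mem_nil, or_false, exists_eq_or_imp, exists_eq_left]
        omega
    · right; refine ⟨-2 * (x + 1 * x0), ?_, ?_⟩
      · simp only [dot]; ring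
      · simp only [List.mem_cons, List.not_mem_nil, or_false, exists_eq_or_imp, exists_eq_left]
        omega
    · right; refine ⟨1 * (x - 1 * x0), ?_, ?_⟩
      · simp only [dot]; ring
      · simp only [List.mem_cons, List.not_mem_nil, or_false, exists_eq_or_imp, exists_eq_left]
        omega
    · right; refine ⟨-2 * (x + 2 * x0), ?_, ?_⟩
      · simp only [dot]; ring
      · simp only [List.mem_cons, List.not_mem_nil, or_false, exists_eq_or_imp, exists_eq_left]
        omega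
    · right; refine ⟨-2 * (x - 1 * x0), ?_, ?_⟩
      · simp only [dot]; ring
      · simp only [List.mem_cons, List.not_mem_nil, or_false, exists_eq_or_imp, exists_eq_left]
        omega

lemma core_B (K t s x0 : ℤ) (n : ℕ) (ht : 0 ≤ t) (hx1 : -(K - s) ≤ x0) (hx2 : x0 ≤ K - s)
    (h1 : 2 * (3 * K - 3 * s + 3 * t + 3) < n) (h2 : 2 * (3 * K - s + t + 3) < n) (hs : 0 ≤ s) :
    Cov (T6 K K K t t t) (x0, 0, 1) n := by
  apply cover_row (T6 K K K t t t) (x0, 0, 1) (1, x0, -x0) (0, -1, 0) n 2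
    [(0, min (min (-K) (-K - x0)) (min (x0 - t) (-2 * x0 - t)),
      max (max K (K - x0)) (max (x0 + t) (-2 * x0 + t))),
      (1, (-t - x0) / 2, (t - x0 - 1) / 2)]
    (by norm_num) (by norm_num) rfl (by simp) (by simp only [dot]; ring) (by simp only [dot]; ring)
  · simp only [List.map_cons, List.map_nil, List.sum_cons, List.sum_nil]; omega
  · intro q hq hqp
    rw [mem_T6] at hq
    rcases hq with rfl | ⟨x, h1, h2, rfl⟩ | ⟨x, h1, h2, rfl⟩ | ⟨x, h1, h2, rfl⟩ | ⟨x, h1, h2, rfl⟩ |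
      ⟨x, h1, h2, rfl⟩ | ⟨x, h1, h2, rfl⟩
    · left; simp [dot]
    · right; refine ⟨-2 * (x + 1 * x0), ?_, ?_⟩
      · simp only [dot]; ring
      · simp only [List.mem_cons, List.not_mem_nil, or_false, exists_eq_or_imp, exists_eq_left]
        omega
    · left; simp [dot]
    · right; refine ⟨2 * (x + 0 * x0), ?_, ?_⟩
      · simp only [dot]; ring
      · simp only [List.mem_cons, List.not_mem_nil, or_false, exists_eq_or_imp, exists_eq_left]
        omega
    · right; refine ⟨-2 * (x - 1 * x0), ?_, ?_⟩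
      · simp only [dot]; ring
      · simp only [List.mem_cons, List.not_mem_nil, or_false, exists_eq_or_imp, exists_eq_left]
        omega
    · right; refine ⟨1 * (x - 1 * x0), ?_, ?_⟩
      · simp only [dot]; ring
      · simp only [List.mem_cons, List.not_mem_nil, or_false, exists_eq_or_imp, exists_eq_left]
        omega
    · right; refine ⟨-2 * (x + 2 * x0), ?_, ?_⟩
      · simp only [dot]; ring
      · simp only [List.mem_cons, List.not_mem_nil, or_false, exists_eq_or_imp, exists_eq_left]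
        omega

lemma core_C (K t s x0 : ℤ) (n : ℕ) (ht : 0 ≤ t) (hx1 : -(K - s) ≤ x0) (hx2 : x0 ≤ K - s)
    (h1 : 2 * (3 * K - 3 * s + 3 * t + 3) < n) (h2 : 2 * (3 * K - s + t + 3) < n) (hs : 0 ≤ s) :
    Cov (T6 K K K t t t) (x0, -1, -1) n := by
  apply cover_row (T6 K K K t t t) (x0, -1, -1) (1, 0, x0) (0, 1, -1) n 2
    [(0, min (min (-K) (-K - x0)) (min (x0 - t) (-2 * x0 - t)),
      max (max K (K - x0)) (max (x0 + t) (-2 * x0 + t))),
      (1, (-t - x0) / 2, (t - x0 - 1) / 2)]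
    (by norm_num) (by norm_num) rfl (by simp) (by simp only [dot]; ring) (by simp only [dot]; ring)
  · simp only [List.map_cons, List.map_nil, List.sum_cons, List.sum_nil]; omega
  · intro q hq hqp
    rw [mem_T6] at hq
    rcases hq with rfl | ⟨x, h1, h2, rfl⟩ | ⟨x, h1, h2, rfl⟩ | ⟨x, h1, h2, rfl⟩ | ⟨x, h1, h2, rfl⟩ |
      ⟨x, h1, h2, rfl⟩ | ⟨x, h1, h2, rfl⟩
    · left; simp [dot]
    · right; refine ⟨2 * (x + 0 * x0), ?_, ?_⟩
      · simp only [dot]; ring
      · simp only [List.mem_cons, List.not_mem_nil, or_false, exists_eq_or_imp, exists_eq_left]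
        omega
    · right; refine ⟨-2 * (x + 1 * x0), ?_, ?_⟩
      · simp only [dot]; ring
      · simp only [List.mem_cons, List.not_mem_nil, or_false, exists_eq_or_imp, exists_eq_left]
        omega
    · left; simp [dot]
    · right; refine ⟨-2 * (x + 2 * x0), ?_, ?_⟩
      · simp only [dot]; ring
      · simp only [List.mem_cons, List.not_mem_nil, or_false, exists_eq_or_imp, exists_eq_left]
        omega
    · right; refine ⟨-2 * (x - 1 * x0), ?_, ?_⟩
      · simp only [dot]; ring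
      · simp only [List.mem_cons, List.not_mem_nil, or_false, exists_eq_or_imp, exists_eq_left]
        omega
    · right; refine ⟨1 * (x - 1 * x0), ?_, ?_⟩
      · simp only [dot]; ring
      · simp only [List.mem_cons, List.not_mem_nil, or_false, exists_eq_or_imp, exists_eq_left]
        omega

/-! ## A checker for families with one integer parameter -/

/-- Value of the affine form with coefficients u at the parameter κ. -/
def ev (κ : ℤ) (u : ℤ × ℤ) : ℤ := u.1 + u.2 * κ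

/-- Comparison of affine forms for all parameters from κ0 on. -/
def le0 (κ0 : ℤ) (u v : ℤ × ℤ) : Bool :=
  decide (u.2 ≤ v.2) && decide (u.1 + u.2 * κ0 ≤ v.1 + v.2 * κ0)

lemma le0_sound {κ0 κ : ℤ} {u v : ℤ × ℤ} (h : le0 κ0 u v = true) (hκ : κ0 ≤ κ) :
    ev κ u ≤ ev κ v := by
  unfold le0 at h
  rw [Bool.and_eq_true, decide_eq_true_eq, decide_eq_true_eq] at h
  unfold ev
  have : 0 ≤ (v.2 - u.2) * (κ - κ0) := mul_nonneg (by linarith [h.1]) (by linarith)
  nlinarith [h.2]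

/-- A residue class modulo 6 together with an interval of quotients. -/
abbrev Key := ℤ × (ℤ × ℤ) × (ℤ × ℤ)

/-- A piece of a row of a family, with certificates for its points. -/
structure FP where
  y : ℤ
  z : ℤ
  lo : ℤ × ℤ
  hi : ℤ × ℤ
  cs : List (List Key)

def inL (κ0 : ℤ) (L : List Key) (c : ℤ) (a b : ℤ × ℤ) : Bool :=
  le0 κ0 (b.1 + 1, b.2) a || L.any (fun e => decide (e.1 = c) && le0 κ0 e.2.1 a && le0 κ0 b e.2.2)

def covP (κ0 γ : ℤ) (L : List Key) (a b : ℤ × ℤ) : Bool :=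
  decide (a.2 % 6 = 0) && decide (b.2 % 6 = 0) &&
    [0, 1, 2, 3, 4, 5].all (fun c => decide ((c - a.1) % γ ≠ 0) ||
      inL κ0 L c ((a.1 - c + 5) / 6, a.2 / 6) ((b.1 - c) / 6, b.2 / 6))

lemma covP_sound {κ0 γ κ : ℤ} {L : List Key} {a b : ℤ × ℤ} (h : covP κ0 γ L a b = true)
    (hκ : κ0 ≤ κ) (hγ : γ ∣ 6) (m : ℤ) (h1 : ev κ a ≤ m) (h2 : m ≤ ev κ b) (h3 : γ ∣ m - ev κ a) :
    ∃ e ∈ L, m % 6 = e.1 ∧ ev κ e.2.1 ≤ m / 6 ∧ m / 6 ≤ ev κ e.2.2 := by
  unfold covP at h
  rw [Bool.and_eq_true, Bool.and_eq_true, decide_eq_true_eq, decide_eq_true_eq,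
    List.all_eq_true] at h
  obtain ⟨⟨ha, hb⟩, hc⟩ := h
  have hm : m % 6 ∈ ([0, 1, 2, 3, 4, 5] : List ℤ) := by
    have h5 : 0 ≤ m % 6 := by omega
    have h6 : m % 6 < 6 := by omega
    simp only [List.mem_cons, List.not_mem_nil, or_false]
    omega
  have hc1 := hc _ hm
  rw [Bool.or_eq_true, decide_eq_true_eq] at hc1
  have hdiv : (m % 6 - a.1) % γ = 0 := by
    apply Int.emod_eq_zero_of_dvd
    have e1 : m % 6 - a.1 = (m - ev κ a) - 6 * (m / 6) + a.2 * κ := by
      unfold ev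
      have := Int.mul_ediv_add_emod m 6
      linarith
    rw [e1]
    have e2 : γ ∣ a.2 * κ := (hγ.trans (Int.dvd_of_emod_eq_zero ha)).mul_right κ
    exact (h3.sub (hγ.mul_right _)).add e2
  rcases hc1 with hc1 | hc1
  · exact absurd hdiv hc1
  · unfold inL at hc1
    rw [Bool.or_eq_true, List.any_eq_true] at hc1
    have hA : ∃ P, a.2 * κ = 6 * P ∧ (a.2 / 6) * κ = P := by
      refine ⟨(a.2 / 6) * κ, ?_, rfl⟩
      have : a.2 = 6 * (a.2 / 6) := by omega
      calc a.2 * κ = (6 * (a.2 / 6)) * κ := by rw [← this]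
        _ = 6 * ((a.2 / 6) * κ) := by ring
    have hB : ∃ P, b.2 * κ = 6 * P ∧ (b.2 / 6) * κ = P := by
      refine ⟨(b.2 / 6) * κ, ?_, rfl⟩
      have : b.2 = 6 * (b.2 / 6) := by omega
      calc b.2 * κ = (6 * (b.2 / 6)) * κ := by rw [← this]
        _ = 6 * ((b.2 / 6) * κ) := by ring
    obtain ⟨P, hP, hP'⟩ := hA
    obtain ⟨Q, hQ, hQ'⟩ := hB
    have l1 : ev κ ((a.1 - m % 6 + 5) / 6, a.2 / 6) ≤ m / 6 := by
      unfold ev at h1 ⊢
      simp only
      rw [hP']; rw [hP] at h1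
      omega
    have l2 : m / 6 ≤ ev κ ((b.1 - m % 6) / 6, b.2 / 6) := by
      unfold ev at h2 ⊢
      simp only
      rw [hQ']; rw [hQ] at h2
      omega
    rcases hc1 with hc1 | ⟨e, he, hc1⟩
    · have := le0_sound hc1 hκ
      exfalso
      have e3 : ev κ ((b.1 - m % 6) / 6 + 1, b.2 / 6) = ev κ ((b.1 - m % 6) / 6, b.2 / 6) + 1 := by
        unfold ev; simp only; ring
      simp only at this
      rw [e3] at this
      linarith
    · rw [Bool.and_eq_true, Bool.and_eq_true, decide_eq_true_eq] at hc1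
      exact ⟨e, he, hc1.1.1.symm, (le0_sound hc1.1.2 hκ).trans l1, l2.trans (le0_sound hc1.2 hκ)⟩

def r1 (y0 : ℤ) : ℤ := if y0 * y0 = 1 then y0 else 0
def r2 (y0 z0 : ℤ) : ℤ := if y0 * y0 = 1 then 0 else z0

def chkQ (κ0 y0 z0 : ℤ) (x0 : ℤ × ℤ) (L : List Key) (q : FP) : Bool :=
  decide (y0 * q.z - z0 * q.y = 0) ||
    (decide (6 / (y0 * q.z - z0 * q.y) * (y0 * q.z - z0 * q.y) = 6) &&
      (if 0 < 6 / (y0 * q.z - z0 * q.y) then
        covP κ0 (6 / (y0 * q.z - z0 * q.y)) L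
          (6 / (y0 * q.z - z0 * q.y) * (q.lo.1 - (r1 y0 * q.y + r2 y0 z0 * q.z) * x0.1),
            6 / (y0 * q.z - z0 * q.y) * (q.lo.2 - (r1 y0 * q.y + r2 y0 z0 * q.z) * x0.2))
          (6 / (y0 * q.z - z0 * q.y) * (q.hi.1 - (r1 y0 * q.y + r2 y0 z0 * q.z) * x0.1),
            6 / (y0 * q.z - z0 * q.y) * (q.hi.2 - (r1 y0 * q.y + r2 y0 z0 * q.z) * x0.2))
      else
        covP κ0 (6 / (y0 * q.z - z0 * q.y)) L
          (6 / (y0 * q.z - z0 * q.y) * (q.hi.1 - (r1 y0 * q.y + r2 y0 z0 * q.z) * x0.1),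
            6 / (y0 * q.z - z0 * q.y) * (q.hi.2 - (r1 y0 * q.y + r2 y0 z0 * q.z) * x0.2))
          (6 / (y0 * q.z - z0 * q.y) * (q.lo.1 - (r1 y0 * q.y + r2 y0 z0 * q.z) * x0.1),
            6 / (y0 * q.z - z0 * q.y) * (q.lo.2 - (r1 y0 * q.y + r2 y0 z0 * q.z) * x0.2))))

lemma chkQ_sound {κ0 κ y0 z0 : ℤ} {x0 : ℤ × ℤ} {L : List Key} {q : FP}
    (h : chkQ κ0 y0 z0 x0 L q = true) (hκ : κ0 ≤ κ) (x : ℤ) (h1 : ev κ q.lo ≤ x)
    (h2 : x ≤ ev κ q.hi) :
    y0 * q.z - z0 * q.y = 0 ∨ ∃ m, 6 * (x - (r1 y0 * q.y + r2 y0 z0 * q.z) * ev κ x0) =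
      m * (y0 * q.z - z0 * q.y) ∧
      ∃ e ∈ L, m % 6 = e.1 ∧ ev κ e.2.1 ≤ m / 6 ∧ m / 6 ≤ ev κ e.2.2 := by
  unfold chkQ at h
  rw [Bool.or_eq_true, decide_eq_true_eq] at h
  rcases h with h | h
  · exact Or.inl h
  · right
    generalize hβ : y0 * q.z - z0 * q.y = β at h ⊢
    generalize hα : r1 y0 * q.y + r2 y0 z0 * q.z = α at h ⊢
    generalize hγ : 6 / β = γ at h
    rw [Bool.and_eq_true, decide_eq_true_eq] at h
    obtain ⟨h3, h4⟩ := h
    have hev : ∀ u : ℤ × ℤ, ev κ (γ * (u.1 - α * x0.1), γ * (u.2 - α * x0.2)) =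
        γ * (ev κ u - α * ev κ x0) := by
      intro u; unfold ev; ring
    have hd : γ ∣ 6 := ⟨β, h3.symm⟩
    refine ⟨γ * (x - α * ev κ x0), ?_, ?_⟩
    · linear_combination (-(x - α * ev κ x0)) * h3
    · split_ifs at h4 with hpos
      · apply covP_sound h4 hκ hd
        · rw [hev]
          exact mul_le_mul_of_nonneg_left (by linarith) hpos.le
        · rw [hev]
          exact mul_le_mul_of_nonneg_left (by linarith) hpos.le
        · rw [hev]
          exact ⟨x - ev κ q.lo, by ring⟩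
      · have hneg : γ ≤ 0 := by linarith
        apply covP_sound h4 hκ hd
        · rw [hev]
          exact mul_le_mul_of_nonpos_left (by linarith) hneg
        · rw [hev]
          exact mul_le_mul_of_nonpos_left (by linarith) hneg
        · rw [hev]
          exact ⟨x - ev κ q.hi, by ring⟩

/-- The set of triples of a family at the parameter κ. -/
noncomputable def fset (κ : ℤ) (qs : List FP) : Finset (ℤ × ℤ × ℤ) :=
  model (qs.map (fun q => ⟨q.y, q.z, 1, 0, ev κ q.lo, ev κ q.hi⟩))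

lemma mem_fset (κ : ℤ) (qs : List FP) (p : ℤ × ℤ × ℤ) :
    p ∈ fset κ qs ↔ p = (1, 0, 0) ∨
      ∃ q ∈ qs, ∃ x, ev κ q.lo ≤ x ∧ x ≤ ev κ q.hi ∧ p = (x, q.y, q.z) := by
  unfold fset
  rw [mem_model]
  simp only [List.mem_map, exists_exists_and_eq_and, one_mul, add_zero]

/-- Sum of the lengths of the keys, as an affine form. -/
def lenSum : List Key → ℤ × ℤ
  | [] => (0, 0)
  | e :: L => (e.2.2.1 + 1 - e.2.1.1 + (lenSum L).1, e.2.2.2 - e.2.1.2 + (lenSum L).2)

lemma lenSum_sound {κ0 κ : ℤ} (hκ : κ0 ≤ κ) (L : List Key)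
    (h : L.all (fun e => le0 κ0 e.2.1 (e.2.2.1 + 1, e.2.2.2)) = true) :
    ((((L.map (fun e => ((e.1, ev κ e.2.1, ev κ e.2.2) : ℤ × ℤ × ℤ))).map
      (fun e => (e.2.2 + 1 - e.2.1).toNat)).sum : ℕ) : ℤ) = ev κ (lenSum L) := by
  induction L with
  | nil => simp [lenSum, ev]
  | cons e L ih =>
    rw [List.all_cons, Bool.and_eq_true] at h
    have h1 := le0_sound h.1 hκ
    have h2 := ih h.2
    have e1 : ev κ (e.2.2.1 + 1, e.2.2.2) = ev κ e.2.2 + 1 := by unfold ev; simp only; ring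
    rw [e1] at h1
    rw [List.map_cons, List.map_cons, List.sum_cons, Nat.cast_add, h2,
      Int.toNat_of_nonneg (by simp only; linarith)]
    rw [lenSum]
    simp only [ev]
    ring

def chkPt (κ0 : ℤ) (n : ℤ × ℤ) (qs : List FP) (y0 z0 : ℤ) (x0 : ℤ × ℤ) (L : List Key) : Bool :=
  decide (r1 y0 * y0 + r2 y0 z0 * z0 = 1) && qs.all (fun q => chkQ κ0 y0 z0 x0 L q) &&
    L.all (fun e => le0 κ0 e.2.1 (e.2.2.1 + 1, e.2.2.2)) &&
    le0 κ0 (2 * (1 + (lenSum L).1) + 1, 2 * (lenSum L).2) n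

lemma chkPt_sound {κ0 κ : ℤ} {n : ℤ × ℤ} {qs : List FP} {y0 z0 : ℤ} {x0 : ℤ × ℤ} {L : List Key}
    (h : chkPt κ0 n qs y0 z0 x0 L = true) (hκ : κ0 ≤ κ) (N : ℕ) (hN : (N : ℤ) = ev κ n) :
    Cov (fset κ qs) (ev κ x0, y0, z0) N := by
  unfold chkPt at h
  rw [Bool.and_eq_true, Bool.and_eq_true, Bool.and_eq_true, decide_eq_true_eq,
    List.all_eq_true] at h
  obtain ⟨⟨⟨h1, h2⟩, h3⟩, h4⟩ := h
  have h5 := lenSum_sound hκ L h3
  have h6 := le0_sound h4 hκ
  apply cover_row (fset κ qs) (ev κ x0, y0, z0) (1, -ev κ x0 * r1 y0, -ev κ x0 * r2 y0 z0)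
    (0, -z0, y0) N 6 (L.map (fun e => (e.1, ev κ e.2.1, ev κ e.2.2)))
    (by norm_num) (by norm_num) rfl
  · intro h
    simp only [Prod.ext_iff] at h
    have hz : z0 = 0 := by have := h.2.1; simpa using this
    have hy : y0 = 0 := h.2.2
    rw [hz, hy] at h1
    simp at h1
  · simp only [dot]
    linear_combination (-ev κ x0) * h1
  · simp only [dot]; ring
  · have e1 : ev κ (2 * (1 + (lenSum L).1) + 1, 2 * (lenSum L).2) = 2 * (1 + ev κ (lenSum L)) + 1 := by
      unfold ev; simp only; ring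
    rw [e1, ← h5, ← hN] at h6
    generalize ((L.map (fun e => ((e.1, ev κ e.2.1, ev κ e.2.2) : ℤ × ℤ × ℤ))).map
      (fun e => (e.2.2 + 1 - e.2.1).toNat)).sum = w at h6 ⊢
    omega
  · intro q hq _
    rw [mem_fset] at hq
    rcases hq with rfl | ⟨q, hq, x, hx1, hx2, rfl⟩
    · left; simp [dot]
    · have := chkQ_sound (h2 q hq) hκ x hx1 hx2
      rcases this with h7 | ⟨m, h7, e, he, h8⟩
      · left
        simp only [dot]
        linear_combination h7
      · right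
        refine ⟨m, ?_, (e.1, ev κ e.2.1, ev κ e.2.2), List.mem_map_of_mem he, h8⟩
        simp only [dot]
        linear_combination h7

def chkRun (κ0 : ℤ) (n : ℤ × ℤ) (qs : List FP) (y0 z0 d : ℤ) : ℤ → List (List Key) → Bool
  | _, [] => true
  | c, L :: cs => chkPt κ0 n qs y0 z0 (c, d) L && chkRun κ0 n qs y0 z0 d (c + 1) cs

lemma chkRun_sound {κ0 κ : ℤ} {n : ℤ × ℤ} {qs : List FP} {y0 z0 d : ℤ} (hκ : κ0 ≤ κ) (N : ℕ)
    (hN : (N : ℤ) = ev κ n) (cs : List (List Key)) : ∀ c : ℤ,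
    chkRun κ0 n qs y0 z0 d c cs = true → ∀ j : ℤ, c ≤ j → j < c + cs.length →
      Cov (fset κ qs) (ev κ (j, d), y0, z0) N := by
  induction cs with
  | nil => intro c _ j h1 h2; simp at h2; omega
  | cons L cs ih =>
    intro c h j h1 h2
    rw [chkRun, Bool.and_eq_true] at h
    rcases eq_or_lt_of_le h1 with h3 | h3
    · rw [← h3]; exact chkPt_sound h.1 hκ N hN
    · apply ih (c + 1) h.2 j (by omega)
      rw [List.length_cons] at h2
      push_cast at h2
      omega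

/-- A family: first parameter κ0, bound t for the short rows, margin s, the affine forms K (half
length of the long rows) and n (number of points), and the pieces. -/
structure Fam where
  κ0 : ℤ
  t : ℤ
  s : ℤ
  K : ℤ × ℤ
  n : ℤ × ℤ
  qs : List FP

def isLong (y z : ℤ) : Bool :=
  (decide (y = 1) && decide (z = 0)) || (decide (y = 0) && decide (z = 1)) ||
    (decide (y = -1) && decide (z = -1))

def isShort (y z : ℤ) : Bool :=
  (decide (y = 1) && decide (z = 2)) || (decide (y = -2) && decide (z = -1)) ||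
    (decide (y = 1) && decide (z = -1))

def rowOK (F : Fam) (e : FP) : Bool :=
  (isLong e.y e.z && le0 F.κ0 (-F.K.1, -F.K.2) e.lo && le0 F.κ0 e.hi F.K) ||
    (isShort e.y e.z && le0 F.κ0 (-F.t, 0) e.lo && le0 F.κ0 e.hi (F.t, 0))

def chkPiece (F : Fam) (e : FP) : Bool :=
  (isLong e.y e.z && le0 F.κ0 (-(F.K.1 - F.s), -F.K.2) e.lo &&
      le0 F.κ0 e.hi (F.K.1 - F.s, F.K.2)) ||
    (decide (e.lo.2 = e.hi.2) && decide ((e.cs.length : ℤ) = e.hi.1 - e.lo.1 + 1) &&
      chkRun F.κ0 F.n F.qs e.y e.z e.lo.2 e.lo.1 e.cs)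

def sepB (κ0 : ℤ) (e f : FP) : Bool :=
  decide (e.y ≠ f.y) || decide (e.z ≠ f.z) || le0 κ0 (e.hi.1 + 1, e.hi.2) f.lo ||
    le0 κ0 (f.hi.1 + 1, f.hi.2) e.lo

def sepAll (κ0 : ℤ) : List FP → Bool
  | [] => true
  | e :: L => L.all (sepB κ0 e) && sepAll κ0 L

def cardSum : List FP → ℤ × ℤ
  | [] => (0, 0)
  | e :: L => (e.hi.1 + 1 - e.lo.1 + (cardSum L).1, e.hi.2 - e.lo.2 + (cardSum L).2)

def chkFam (F : Fam) : Bool :=
  F.qs.all (chkPiece F) && F.qs.all (rowOK F) && sepAll F.κ0 F.qs &&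
    F.qs.all (fun e => le0 F.κ0 e.lo (e.hi.1 + 1, e.hi.2)) &&
    decide (F.n = (1 + (cardSum F.qs).1, (cardSum F.qs).2)) &&
    F.qs.any (fun e => decide (e.y = 1) && decide (e.z = 0) && le0 F.κ0 e.lo (0, 0) &&
      le0 F.κ0 (0, 0) e.hi) &&
    F.qs.any (fun e => decide (e.y = 0) && decide (e.z = 1) && le0 F.κ0 e.lo (0, 0) &&
      le0 F.κ0 (0, 0) e.hi) &&
    decide (0 ≤ F.t) && decide (0 ≤ F.s) && le0 F.κ0 (13, 0) F.n &&
    le0 F.κ0 (2 * (3 * F.K.1 - 3 * F.s + 3 * F.t + 3) + 1, 6 * F.K.2) F.n &&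
    le0 F.κ0 (2 * (3 * F.K.1 - F.s + F.t + 3) + 1, 6 * F.K.2) F.n

lemma isLong_iff (y z : ℤ) : isLong y z = true ↔
    (y = 1 ∧ z = 0) ∨ (y = 0 ∧ z = 1) ∨ (y = -1 ∧ z = -1) := by
  unfold isLong; simp [or_assoc]

lemma isShort_iff (y z : ℤ) : isShort y z = true ↔
    (y = 1 ∧ z = 2) ∨ (y = -2 ∧ z = -1) ∨ (y = 1 ∧ z = -1) := by
  unfold isShort; simp [or_assoc]

lemma sepAll_sound {κ0 κ : ℤ} (hκ : κ0 ≤ κ) (qs : List FP) (h : sepAll κ0 qs = true) :
    (qs.map (fun q => (⟨q.y, q.z, 1, 0, ev κ q.lo, ev κ q.hi⟩ : Piece))).Pairwise Piece.sep := by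
  induction qs with
  | nil => simp
  | cons e L ih =>
    rw [sepAll, Bool.and_eq_true, List.all_eq_true] at h
    rw [List.map_cons, List.pairwise_cons]
    refine ⟨?_, ih h.2⟩
    intro f hf
    obtain ⟨g, hg, rfl⟩ := List.mem_map.1 hf
    have h1 := h.1 g hg
    unfold sepB at h1
    simp only [Bool.or_eq_true, decide_eq_true_eq] at h1
    unfold Piece.sep
    simp only
    rcases h1 with ((h1 | h1) | h1) | h1
    · exact Or.inl h1
    · exact Or.inr (Or.inl h1)
    · refine Or.inr (Or.inr ?_)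
      intro i j _ hi hj _ hij
      have h2 := le0_sound h1 hκ
      have e1 : ev κ (e.hi.1 + 1, e.hi.2) = ev κ e.hi + 1 := by unfold ev; simp only; ring
      rw [e1] at h2
      linarith
    · refine Or.inr (Or.inr ?_)
      intro i j hi _ _ hj hij
      have h2 := le0_sound h1 hκ
      have e1 : ev κ (g.hi.1 + 1, g.hi.2) = ev κ g.hi + 1 := by unfold ev; simp only; ring
      rw [e1] at h2
      linarith

lemma cardSum_sound {κ0 κ : ℤ} (hκ : κ0 ≤ κ) (qs : List FP)
    (h : qs.all (fun e => le0 κ0 e.lo (e.hi.1 + 1, e.hi.2)) = true) :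
    ((((qs.map (fun q => (⟨q.y, q.z, 1, 0, ev κ q.lo, ev κ q.hi⟩ : Piece))).map
      (fun e => (e.hi + 1 - e.lo).toNat)).sum : ℕ) : ℤ) = ev κ (cardSum qs) := by
  induction qs with
  | nil => simp [cardSum, ev]
  | cons e L ih =>
    rw [List.all_cons, Bool.and_eq_true] at h
    have h1 := le0_sound h.1 hκ
    have h2 := ih h.2
    have e1 : ev κ (e.hi.1 + 1, e.hi.2) = ev κ e.hi + 1 := by unfold ev; simp only; ring
    rw [e1] at h1
    rw [List.map_cons, List.map_cons, List.sum_cons, Nat.cast_add, h2,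
      Int.toNat_of_nonneg (by simp only; linarith)]
    rw [cardSum]
    simp only [ev]
    ring

theorem fam_not_good (F : Fam) (h : chkFam F = true) (κ : ℤ) (hκ : F.κ0 ≤ κ) (N : ℕ)
    (hN : (N : ℤ) = ev κ F.n) : ¬ Good N := by
  unfold chkFam at h
  simp only [Bool.and_eq_true] at h
  obtain ⟨⟨⟨⟨⟨⟨⟨⟨⟨⟨⟨hpc, hrow⟩, hsep⟩, hlen⟩, hn⟩, hA⟩, hB⟩, ht⟩, hs⟩, h13⟩, hc1⟩, hc2⟩ := h
  rw [decide_eq_true_eq] at hn ht hs
  rw [List.all_eq_true] at hpc hrow
  have h13' := le0_sound h13 hκ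
  have hc1' := le0_sound hc1 hκ
  have hc2' := le0_sound hc2 hκ
  have e13 : ev κ (13, 0) = 13 := by unfold ev; simp
  rw [e13, ← hN] at h13'
  have ec1 : ev κ (2 * (3 * F.K.1 - 3 * F.s + 3 * F.t + 3) + 1, 6 * F.K.2) =
      2 * (3 * ev κ F.K - 3 * F.s + 3 * F.t + 3) + 1 := by unfold ev; simp only; ring
  have ec2 : ev κ (2 * (3 * F.K.1 - F.s + F.t + 3) + 1, 6 * F.K.2) =
      2 * (3 * ev κ F.K - F.s + F.t + 3) + 1 := by unfold ev; simp only; ring
  rw [ec1, ← hN] at hc1'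
  rw [ec2, ← hN] at hc2'
  -- the set is contained in a six-row model
  have hsub : ∀ p ∈ fset κ F.qs, p ∈ T6 (ev κ F.K) (ev κ F.K) (ev κ F.K) F.t F.t F.t := by
    intro p hp
    rw [mem_fset] at hp
    rw [mem_T6]
    rcases hp with hp | ⟨q, hq, x, hx1, hx2, rfl⟩
    · exact Or.inl hp
    · have h1 := hrow q hq
      unfold rowOK at h1
      simp only [Bool.or_eq_true, Bool.and_eq_true] at h1
      rcases h1 with ⟨⟨h1, h2⟩, h3⟩ | ⟨⟨h1, h2⟩, h3⟩
      · have h2' := le0_sound h2 hκ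
        have h3' := le0_sound h3 hκ
        have e1 : ev κ (-F.K.1, -F.K.2) = -ev κ F.K := by unfold ev; simp only; ring
        rw [e1] at h2'
        rw [isLong_iff] at h1
        rcases h1 with ⟨hy, hz⟩ | ⟨hy, hz⟩ | ⟨hy, hz⟩
        · exact Or.inr (Or.inl ⟨x, by linarith, by linarith, by rw [hy, hz]⟩)
        · exact Or.inr (Or.inr (Or.inl ⟨x, by linarith, by linarith, by rw [hy, hz]⟩))
        · exact Or.inr (Or.inr (Or.inr (Or.inl ⟨x, by linarith, by linarith, by rw [hy, hz]⟩)))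
      · have h2' := le0_sound h2 hκ
        have h3' := le0_sound h3 hκ
        have e1 : ev κ (-F.t, 0) = -F.t := by unfold ev; simp only; ring
        have e2 : ev κ (F.t, 0) = F.t := by unfold ev; simp only; ring
        rw [e1] at h2'
        rw [e2] at h3'
        rw [isShort_iff] at h1
        rcases h1 with ⟨hy, hz⟩ | ⟨hy, hz⟩ | ⟨hy, hz⟩
        · exact Or.inr (Or.inr (Or.inr (Or.inr (Or.inl
            ⟨x, by linarith, by linarith, by rw [hy, hz]⟩))))
        · exact Or.inr (Or.inr (Or.inr (Or.inr (Or.inr (Or.inl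
            ⟨x, by linarith, by linarith, by rw [hy, hz]⟩)))))
        · exact Or.inr (Or.inr (Or.inr (Or.inr (Or.inr (Or.inr
            ⟨x, by linarith, by linarith, by rw [hy, hz]⟩)))))
  have hcard : (fset κ F.qs).card = N := by
    have hcm := card_model (F.qs.map (fun q => (⟨q.y, q.z, 1, 0, ev κ q.lo, ev κ q.hi⟩ : Piece)))
      (by
        intro e he
        obtain ⟨q, hq, rfl⟩ := List.mem_map.1 he
        refine ⟨?_, one_ne_zero⟩
        have h1 := hrow q hq
        unfold rowOK at h1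
        simp only [Bool.or_eq_true, Bool.and_eq_true, isLong_iff, isShort_iff] at h1
        simp only
        omega)
      (sepAll_sound hκ F.qs hsep)
    have h1 := cardSum_sound hκ F.qs hlen
    have h2 : ((fset κ F.qs).card : ℤ) = N := by
      unfold fset
      rw [hcm, Nat.cast_add, h1, hN, hn, Nat.cast_one]
      unfold ev; simp only; ring
    exact_mod_cast h2
  have hmem : ∀ y z : ℤ, F.qs.any (fun e => decide (e.y = y) && decide (e.z = z) &&
      le0 F.κ0 e.lo (0, 0) && le0 F.κ0 (0, 0) e.hi) = true → (0, y, z) ∈ fset κ F.qs := by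
    intro y z h
    rw [List.any_eq_true] at h
    obtain ⟨e, he, h⟩ := h
    simp only [Bool.and_eq_true, decide_eq_true_eq] at h
    obtain ⟨⟨⟨h1, h2⟩, h3⟩, h4⟩ := h
    rw [mem_fset]
    have h3' := le0_sound h3 hκ
    have h4' := le0_sound h4 hκ
    have e0 : ev κ (0, 0) = 0 := by unfold ev; simp
    rw [e0] at h3' h4'
    exact Or.inr ⟨e, he, 0, h3', h4', by rw [h1, h2]⟩
  rw [← hcard]
  apply not_good_of_model
  · rw [mem_fset]; exact Or.inl rfl
  · exact hmem 1 0 hA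
  · exact hmem 0 1 hB
  · intro q hq; exact T6_ne_zero _ _ _ _ _ _ q (hsub q hq)
  · intro p hp q hq hpq; exact T6_not_prop _ _ _ _ _ _ p (hsub p hp) q (hsub q hq) hpq
  · intro p hp
    rw [hcard]
    have hp' := hp
    rw [mem_fset] at hp'
    rcases hp' with rfl | ⟨q, hq, x, hx1, hx2, rfl⟩
    · exact (T6_O _ _ _ _ _ _ N (by omega)).mono hsub
    · have h1 := hpc q hq
      unfold chkPiece at h1
      simp only [Bool.or_eq_true, Bool.and_eq_true, decide_eq_true_eq] at h1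
      rcases h1 with ⟨⟨h1, h2⟩, h3⟩ | ⟨⟨h1, h2⟩, h3⟩
      · have h2' := le0_sound h2 hκ
        have h3' := le0_sound h3 hκ
        have e1 : ev κ (-(F.K.1 - F.s), -F.K.2) = -(ev κ F.K - F.s) := by
          unfold ev; simp only; ring
        have e2 : ev κ (F.K.1 - F.s, F.K.2) = ev κ F.K - F.s := by unfold ev; simp only; ring
        rw [e1] at h2'
        rw [e2] at h3'
        rw [isLong_iff] at h1
        rcases h1 with ⟨hy, hz⟩ | ⟨hy, hz⟩ | ⟨hy, hz⟩
        · rw [hy, hz]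
          exact (core_A (ev κ F.K) F.t F.s x N ht (by linarith) (by linarith) (by linarith)
            (by linarith) hs).mono hsub
        · rw [hy, hz]
          exact (core_B (ev κ F.K) F.t F.s x N ht (by linarith) (by linarith) (by linarith)
            (by linarith) hs).mono hsub
        · rw [hy, hz]
          exact (core_C (ev κ F.K) F.t F.s x N ht (by linarith) (by linarith) (by linarith)
            (by linarith) hs).mono hsub
      · have h4 := chkRun_sound hκ N hN q.cs q.lo.1 h3 (x - q.lo.2 * κ)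
          (by unfold ev at hx1; linarith)
          (by rw [h2]; rw [h1]; unfold ev at hx2; linarith)
        have e1 : ev κ (x - q.lo.2 * κ, q.lo.2) = x := by unfold ev; simp only; ring
        rw [e1] at h4
        exact h4

end Pool.Agent.Helper447.Dirac
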