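import Mathlib

namespace Pool.Agent.Helper447.Dirac

/-- The Euclidean plane. -/
abbrev Plane := EuclideanSpace ℝ (Fin 2)

/-- `ℓ` is a connecting line of `S`: a line (an affine subspace of dimension `1`) which contains
at least two points of `S`. -/
def IsConnectingLine (S : Set Plane) (ℓ : AffineSubspace ℝ Plane) : Prop :=
  Module.finrank ℝ ℓ.direction = 1 ∧ ∃ a ∈ S, ∃ b ∈ S, a ≠ b ∧ a ∈ ℓ ∧ b ∈ ℓ

/-- `deg S p` is the number of connecting lines of `S` that pass through `p`
(as an extended natural number, `⊤` if there are infinitely many). -/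
noncomputable def deg (S : Set Plane) (p : Plane) : ℕ∞ :=
  {ℓ : AffineSubspace ℝ Plane | IsConnectingLine S ℓ ∧ p ∈ ℓ}.encard

/-- `n` is *good* if every noncollinear set `S` of `n` points of the plane has a point `p`
with `deg S p ≥ n / 2` (stated as `n ≤ 2 * deg S p`). -/
def Good (n : ℕ) : Prop :=
  ∀ S : Finset Plane, S.card = n → ¬ Collinear ℝ (S : Set Plane) →
    ∃ p ∈ S, (n : ℕ∞) ≤ 2 * deg (S : Set Plane) p

end Pool.Agent.Helper447.Dirac
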