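import Mathlib
import Pool.Agent.Helper447.DiracCheck

namespace Pool.Agent.Helper447.Dirac

/-- Family with 72 + 12 κ points. -/
def f0 : Fam where
  κ0 := 2
  t := 12
  s := 4
  K := (2, 2)
  n := (72, 12)
  qs := [
    ⟨1, 0, (-2, -2), (-2, -2), [
      [(0, (-14, -2), (-14, -2)), (0, (-12, -2), (-2, -2)), (0, (0, -2), (8, 4)), (0, (10, 4), (14, 4)), (0, (16, 4), (16, 4)), (3, (-4, 1), (-3, 1)), (3, (-1, 1), (0, 1)), (3, (2, 1), (2, 1)), (3, (4, 1), (5, 1))]]⟩,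
    ⟨1, 0, (0, -2), (1, -2), [
      [(0, (-12, -2), (12, 4)), (3, (-5, 1), (1, 1)), (3, (3, 1), (4, 1))],
      [(0, (-11, -2), (8, 4)), (0, (10, 4), (10, 4)), (3, (-7, 1), (5, 1))]]⟩,
    ⟨1, 0, (2, -2), (-2, 2), []⟩,
    ⟨1, 0, (-1, 2), (0, 2), [
      [(0, (-10, -4), (9, 2)), (0, (11, 2), (11, 2)), (3, (-6, -1), (6, -1))],
      [(0, (-12, -4), (12, 2)), (3, (-5, -1), (1, -1)), (3, (3, -1), (4, -1))]]⟩,
    ⟨1, 0, (2, 2), (2, 2), [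
      [(0, (-16, -4), (-10, -4)), (0, (-8, -4), (2, 2)), (0, (4, 2), (8, 2)), (0, (10, 2), (12, 2)), (0, (14, 2), (14, 2)), (3, (-6, -1), (-5, -1)), (3, (-3, -1), (-2, -1)), (3, (0, -1), (0, -1)), (3, (2, -1), (3, -1))]]⟩,
    ⟨0, 1, (-2, -2), (-2, -2), [
      [(0, (-16, -4), (-10, -4)), (0, (-8, -4), (-6, -4)), (0, (-4, -4), (2, 2)), (0, (4, 2), (8, 2)), (0, (10, 2), (12, 2)), (0, (14, 2), (14, 2)), (3, (-6, -1), (-5, -1)), (3, (-3, -1), (0, -1)), (3, (2, -1), (3, -1))]]⟩,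
    ⟨0, 1, (0, -2), (1, -2), [
      [(0, (-12, -4), (12, 2)), (3, (-5, -1), (1, -1)), (3, (3, -1), (4, -1))],
      [(0, (-10, -4), (9, 2)), (0, (11, 2), (11, 2)), (3, (-6, -1), (6, -1))]]⟩,
    ⟨0, 1, (2, -2), (-2, 2), []⟩,
    ⟨0, 1, (-1, 2), (0, 2), [
      [(0, (-11, -2), (8, 4)), (0, (10, 4), (10, 4)), (3, (-7, 1), (5, 1))],
      [(0, (-12, -2), (12, 4)), (3, (-5, 1), (1, 1)), (3, (3, 1), (4, 1))]]⟩,
    ⟨0, 1, (2, 2), (2, 2), [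
      [(0, (-14, -2), (-14, -2)), (0, (-12, -2), (-2, -2)), (0, (0, -2), (2, 4)), (0, (4, 4), (8, 4)), (0, (10, 4), (14, 4)), (0, (16, 4), (16, 4)), (3, (-4, 1), (-3, 1)), (3, (-1, 1), (2, 1)), (3, (4, 1), (5, 1))]]⟩,
    ⟨-1, -1, (-2, -2), (-2, -2), [
      [(0, (-16, -4), (-16, -4)), (0, (-14, -4), (-10, -4)), (0, (-8, -4), (0, 2)), (0, (2, 2), (6, 2)), (0, (8, 2), (12, 2)), (0, (14, 2), (14, 2)), (3, (-6, -1), (-6, -1)), (3, (-4, -1), (-3, -1)), (3, (-1, -1), (3, -1))]]⟩,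
    ⟨-1, -1, (0, -2), (1, -2), [
      [(0, (-12, -4), (12, 2)), (3, (-5, -1), (-2, -1)), (3, (0, -1), (4, -1))],
      [(0, (-10, -4), (9, 2)), (0, (11, 2), (11, 2)), (3, (-6, -1), (6, -1))]]⟩,
    ⟨-1, -1, (2, -2), (-2, 2), []⟩,
    ⟨-1, -1, (-1, 2), (0, 2), [
      [(0, (-11, -2), (8, 4)), (0, (10, 4), (10, 4)), (3, (-7, 1), (5, 1))],
      [(0, (-12, -2), (12, 4)), (3, (-5, 1), (-2, 1)), (3, (0, 1), (4, 1))]]⟩,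
    ⟨-1, -1, (2, 2), (2, 2), [
      [(0, (-14, -2), (-14, -2)), (0, (-12, -2), (-8, -2)), (0, (-6, -2), (-4, -2)), (0, (-2, -2), (8, 4)), (0, (10, 4), (14, 4)), (0, (16, 4), (16, 4)), (3, (-4, 1), (-4, 1)), (3, (-2, 1), (-1, 1)), (3, (1, 1), (5, 1))]]⟩,
    ⟨1, -1, (-12, 0), (-12, 0), [
      [(0, (-2, -2), (-2, -2)), (0, (0, -2), (12, 2)), (0, (14, 2), (14, 2)), (2, (1, 0), (1, 0)), (2, (3, 0), (3, 0)), (2, (5, 0), (11, 0)), (3, (6, -1), (5, 1)), (4, (0, 0), (8, 0)), (4, (10, 0), (10, 0))]]⟩,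
    ⟨1, -1, (-10, 0), (-8, 0), [
      [(0, (-2, -2), (10, 2)), (0, (12, 2), (12, 2)), (2, (-1, 0), (7, 0)), (2, (9, 0), (9, 0)), (3, (5, -1), (4, 1)), (4, (0, 0), (0, 0)), (4, (2, 0), (10, 0))],
      [(0, (-2, -2), (9, 2)), (0, (11, 2), (11, 2)), (2, (0, 0), (0, 0)), (2, (2, 0), (9, 0)), (3, (3, -1), (5, 1)), (4, (-1, 0), (6, 0)), (4, (8, 0), (8, 0))],
      [(0, (-2, -2), (8, 2)), (0, (10, 2), (10, 2)), (2, (-1, 0), (9, 0)), (3, (4, -1), (3, 1)), (4, (-2, 0), (8, 0))]]⟩,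
    ⟨1, -1, (-6, 0), (-2, 0), [
      [(0, (-2, -2), (8, 2)), (2, (-1, 0), (7, 0)), (3, (3, -1), (2, 1)), (4, (-2, 0), (6, 0))],
      [(0, (-2, -2), (7, 2)), (2, (-2, 0), (7, 0)), (3, (1, -1), (3, 1)), (4, (-3, 0), (6, 0))],
      [(0, (-2, -2), (6, 2)), (2, (-3, 0), (5, 0)), (3, (2, -1), (1, 1)), (4, (-2, 0), (6, 0))],
      [(0, (-2, -2), (5, 2)), (2, (-2, 0), (5, 0)), (3, (0, -1), (2, 1)), (4, (-3, 0), (4, 0))],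
      [(0, (-2, -2), (4, 2)), (2, (-3, 0), (5, 0)), (3, (1, -1), (0, 1)), (4, (-4, 0), (4, 0))]]⟩,
    ⟨1, -1, (0, 0), (10, 0), [
      [(0, (-2, -2), (2, 2)), (2, (-3, 0), (3, 0)), (3, (0, -1), (-1, 1)), (4, (-4, 0), (2, 0))],
      [(0, (-3, -2), (2, 2)), (2, (-5, 0), (3, 0)), (3, (-2, -1), (0, 1)), (4, (-5, 0), (3, 0))],
      [(0, (-4, -2), (2, 2)), (2, (-5, 0), (3, 0)), (3, (-1, -1), (-2, 1)), (4, (-6, 0), (2, 0))],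
      [(0, (-5, -2), (2, 2)), (2, (-5, 0), (2, 0)), (3, (-3, -1), (-1, 1)), (4, (-6, 0), (1, 0))],
      [(0, (-6, -2), (2, 2)), (2, (-7, 0), (1, 0)), (3, (-2, -1), (-3, 1)), (4, (-6, 0), (2, 0))],
      [(0, (-7, -2), (2, 2)), (2, (-7, 0), (2, 0)), (3, (-4, -1), (-2, 1)), (4, (-8, 0), (1, 0))],
      [(0, (-8, -2), (2, 2)), (2, (-7, 0), (1, 0)), (3, (-3, -1), (-4, 1)), (4, (-8, 0), (0, 0))],
      [(0, (-9, -2), (0, 2)), (0, (2, 2), (2, 2)), (2, (-9, 0), (0, 0)), (3, (-5, -1), (-3, 1)), (4, (-8, 0), (1, 0))],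
      [(0, (-10, -2), (0, 2)), (0, (2, 2), (2, 2)), (2, (-9, 0), (1, 0)), (3, (-4, -1), (-5, 1)), (4, (-10, 0), (0, 0))],
      [(0, (-11, -2), (0, 2)), (0, (2, 2), (2, 2)), (2, (-9, 0), (-9, 0)), (2, (-7, 0), (0, 0)), (3, (-6, -1), (-4, 1)), (4, (-10, 0), (-3, 0)), (4, (-1, 0), (-1, 0))],
      [(0, (-12, -2), (0, 2)), (0, (2, 2), (2, 2)), (2, (-11, 0), (-3, 0)), (2, (-1, 0), (-1, 0)), (3, (-5, -1), (-6, 1)), (4, (-10, 0), (-10, 0)), (4, (-8, 0), (0, 0))]]⟩,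
    ⟨1, -1, (12, 0), (12, 0), [
      [(0, (-14, -2), (-14, -2)), (0, (-12, -2), (0, 2)), (0, (2, 2), (2, 2)), (2, (-11, 0), (-11, 0)), (2, (-9, 0), (-5, 0)), (2, (-3, 0), (-1, 0)), (3, (-6, -1), (-7, 1)), (4, (-12, 0), (-4, 0)), (4, (-2, 0), (-2, 0))]]⟩,
    ⟨1, 2, (-12, 0), (-12, 0), [
      [(0, (-14, -2), (-14, -2)), (0, (-12, -2), (0, 2)), (0, (2, 2), (2, 2)), (2, (-11, 0), (-11, 0)), (2, (-9, 0), (-5, 0)), (2, (-3, 0), (-3, 0)), (2, (-1, 0), (-1, 0)), (3, (-6, -1), (-7, 1)), (4, (-12, 0), (-2, 0))]]⟩,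
    ⟨1, 2, (-10, 0), (-6, 0), [
      [(0, (-12, -2), (-12, -2)), (0, (-10, -2), (0, 2)), (0, (2, 2), (2, 2)), (2, (-11, 0), (-1, 0)), (3, (-5, -1), (-6, 1)), (4, (-10, 0), (-10, 0)), (4, (-8, 0), (0, 0))],
      [(0, (-11, -2), (0, 2)), (0, (2, 2), (2, 2)), (2, (-9, 0), (-9, 0)), (2, (-7, 0), (-2, 0)), (2, (0, 0), (0, 0)), (3, (-6, -1), (-4, 1)), (4, (-10, 0), (-1, 0))],
      [(0, (-10, -2), (2, 2)), (2, (-9, 0), (1, 0)), (3, (-4, -1), (-5, 1)), (4, (-10, 0), (-2, 0)), (4, (0, 0), (0, 0))],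
      [(0, (-9, -2), (0, 2)), (0, (2, 2), (2, 2)), (2, (-9, 0), (0, 0)), (3, (-5, -1), (-3, 1)), (4, (-8, 0), (1, 0))],
      [(0, (-8, -2), (2, 2)), (2, (-7, 0), (1, 0)), (3, (-3, -1), (-4, 1)), (4, (-8, 0), (0, 0))]]⟩,
    ⟨1, 2, (-4, 0), (0, 0), [
      [(0, (-6, -2), (2, 2)), (2, (-7, 0), (1, 0)), (3, (-2, -1), (-3, 1)), (4, (-6, 0), (2, 0))],
      [(0, (-5, -2), (2, 2)), (2, (-5, 0), (2, 0)), (3, (-3, -1), (-1, 1)), (4, (-6, 0), (1, 0))],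
      [(0, (-4, -2), (2, 2)), (2, (-5, 0), (3, 0)), (3, (-1, -1), (-2, 1)), (4, (-6, 0), (2, 0))],
      [(0, (-3, -2), (2, 2)), (2, (-5, 0), (3, 0)), (3, (-2, -1), (0, 1)), (4, (-5, 0), (3, 0))],
      [(0, (-2, -2), (2, 2)), (2, (-3, 0), (3, 0)), (3, (0, -1), (-1, 1)), (4, (-4, 0), (2, 0))]]⟩,
    ⟨1, 2, (2, 0), (4, 0), [
      [(0, (-2, -2), (4, 2)), (2, (-3, 0), (5, 0)), (3, (1, -1), (0, 1)), (4, (-4, 0), (4, 0))],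
      [(0, (-2, -2), (5, 2)), (2, (-2, 0), (5, 0)), (3, (0, -1), (2, 1)), (4, (-3, 0), (4, 0))],
      [(0, (-2, -2), (6, 2)), (2, (-3, 0), (5, 0)), (3, (2, -1), (1, 1)), (4, (-2, 0), (6, 0))]]⟩,
    ⟨1, 2, (6, 0), (10, 0), [
      [(0, (-2, -2), (8, 2)), (2, (-1, 0), (7, 0)), (3, (3, -1), (2, 1)), (4, (-2, 0), (6, 0))],
      [(0, (-2, -2), (7, 2)), (0, (9, 2), (9, 2)), (2, (-2, 0), (7, 0)), (3, (2, -1), (4, 1)), (4, (-1, 0), (8, 0))],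
      [(0, (-2, -2), (8, 2)), (0, (10, 2), (10, 2)), (2, (-1, 0), (9, 0)), (3, (4, -1), (3, 1)), (4, (-2, 0), (8, 0))],
      [(0, (-2, -2), (-2, -2)), (0, (0, -2), (9, 2)), (0, (11, 2), (11, 2)), (2, (0, 0), (9, 0)), (3, (3, -1), (5, 1)), (4, (-1, 0), (6, 0)), (4, (8, 0), (8, 0))],
      [(0, (-2, -2), (-2, -2)), (0, (0, -2), (10, 2)), (0, (12, 2), (12, 2)), (2, (-1, 0), (7, 0)), (2, (9, 0), (9, 0)), (3, (5, -1), (4, 1)), (4, (0, 0), (10, 0))]]⟩,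
    ⟨1, 2, (12, 0), (12, 0), [
      [(0, (-2, -2), (-2, -2)), (0, (0, -2), (12, 2)), (0, (14, 2), (14, 2)), (2, (1, 0), (3, 0)), (2, (5, 0), (5, 0)), (2, (7, 0), (11, 0)), (3, (6, -1), (5, 1)), (4, (0, 0), (8, 0)), (4, (10, 0), (10, 0))]]⟩,
    ⟨-2, -1, (-12, 0), (-12, 0), [
      [(0, (-2, -2), (12, 2)), (0, (14, 2), (14, 2)), (2, (1, 0), (11, 0)), (3, (6, -1), (5, 1)), (4, (0, 0), (0, 0)), (4, (2, 0), (2, 0)), (4, (4, 0), (6, 0)), (4, (8, 0), (8, 0)), (4, (10, 0), (10, 0))]]⟩,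
    ⟨-2, -1, (-10, 0), (-6, 0), [
      [(0, (-2, -2), (-2, -2)), (0, (0, -2), (10, 2)), (0, (12, 2), (12, 2)), (2, (-1, 0), (7, 0)), (2, (9, 0), (9, 0)), (3, (5, -1), (4, 1)), (4, (0, 0), (10, 0))],
      [(0, (-2, -2), (9, 2)), (0, (11, 2), (11, 2)), (2, (0, 0), (9, 0)), (3, (3, -1), (5, 1)), (4, (-1, 0), (-1, 0)), (4, (1, 0), (6, 0)), (4, (8, 0), (8, 0))],
      [(0, (-2, -2), (10, 2)), (2, (-1, 0), (-1, 0)), (2, (1, 0), (9, 0)), (3, (4, -1), (3, 1)), (4, (-2, 0), (8, 0))],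
      [(0, (-2, -2), (7, 2)), (0, (9, 2), (9, 2)), (2, (-2, 0), (7, 0)), (3, (2, -1), (4, 1)), (4, (-1, 0), (8, 0))],
      [(0, (-2, -2), (8, 2)), (2, (-1, 0), (7, 0)), (3, (3, -1), (2, 1)), (4, (-2, 0), (6, 0))]]⟩,
    ⟨-2, -1, (-4, 0), (4, 0), [
      [(0, (-2, -2), (6, 2)), (2, (-3, 0), (5, 0)), (3, (2, -1), (1, 1)), (4, (-2, 0), (6, 0))],
      [(0, (-2, -2), (5, 2)), (2, (-2, 0), (5, 0)), (3, (0, -1), (2, 1)), (4, (-3, 0), (4, 0))],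
      [(0, (-2, -2), (4, 2)), (2, (-3, 0), (5, 0)), (3, (1, -1), (0, 1)), (4, (-4, 0), (4, 0))],
      [(0, (-2, -2), (3, 2)), (2, (-4, 0), (4, 0)), (3, (-1, -1), (1, 1)), (4, (-4, 0), (4, 0))],
      [(0, (-2, -2), (2, 2)), (2, (-3, 0), (3, 0)), (3, (0, -1), (-1, 1)), (4, (-4, 0), (2, 0))],
      [(0, (-3, -2), (2, 2)), (2, (-5, 0), (3, 0)), (3, (-2, -1), (0, 1)), (4, (-5, 0), (3, 0))],
      [(0, (-4, -2), (2, 2)), (2, (-5, 0), (3, 0)), (3, (-1, -1), (-2, 1)), (4, (-6, 0), (2, 0))],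
      [(0, (-5, -2), (2, 2)), (2, (-5, 0), (2, 0)), (3, (-3, -1), (-1, 1)), (4, (-6, 0), (1, 0))],
      [(0, (-6, -2), (2, 2)), (2, (-7, 0), (1, 0)), (3, (-2, -1), (-3, 1)), (4, (-6, 0), (2, 0))]]⟩,
    ⟨-2, -1, (6, 0), (10, 0), [
      [(0, (-8, -2), (2, 2)), (2, (-7, 0), (1, 0)), (3, (-3, -1), (-4, 1)), (4, (-8, 0), (0, 0))],
      [(0, (-9, -2), (0, 2)), (0, (2, 2), (2, 2)), (2, (-9, 0), (0, 0)), (3, (-5, -1), (-3, 1)), (4, (-8, 0), (1, 0))],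
      [(0, (-10, -2), (0, 2)), (0, (2, 2), (2, 2)), (2, (-9, 0), (1, 0)), (3, (-4, -1), (-5, 1)), (4, (-10, 0), (0, 0))],
      [(0, (-11, -2), (-11, -2)), (0, (-9, -2), (0, 2)), (0, (2, 2), (2, 2)), (2, (-9, 0), (-9, 0)), (2, (-7, 0), (0, 0)), (3, (-6, -1), (-4, 1)), (4, (-10, 0), (-1, 0))],
      [(0, (-12, -2), (-12, -2)), (0, (-10, -2), (0, 2)), (0, (2, 2), (2, 2)), (2, (-11, 0), (-1, 0)), (3, (-5, -1), (-6, 1)), (4, (-10, 0), (-10, 0)), (4, (-8, 0), (0, 0))]]⟩,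
    ⟨-2, -1, (12, 0), (12, 0), [
      [(0, (-14, -2), (0, 2)), (0, (2, 2), (2, 2)), (2, (-11, 0), (-11, 0)), (2, (-9, 0), (-1, 0)), (3, (-6, -1), (-7, 1)), (4, (-12, 0), (-10, 0)), (4, (-8, 0), (-8, 0)), (4, (-6, 0), (-6, 0)), (4, (-4, 0), (-2, 0))]]⟩]

lemma f0_ok : chkFam f0 = true := by decide +kernel

/-- Family with 50 + 12 κ points. -/
def f2 : Fam where
  κ0 := 2
  t := 8
  s := 3
  K := (2, 2)
  n := (50, 12)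
  qs := [
    ⟨1, 0, (-2, -2), (-2, -2), [
      [(0, (-10, -2), (-10, -2)), (0, (-8, -2), (-4, -2)), (0, (-2, -2), (-2, -2)), (0, (0, -2), (4, 4)), (0, (6, 4), (10, 4)), (0, (12, 4), (12, 4)), (3, (-2, 1), (0, 1)), (3, (2, 1), (3, 1))]]⟩,
    ⟨1, 0, (0, -2), (0, -2), [
      [(0, (-8, -2), (8, 4)), (3, (-3, 1), (2, 1))]]⟩,
    ⟨1, 0, (1, -2), (-1, 2), []⟩,
    ⟨1, 0, (0, 2), (0, 2), [
      [(0, (-8, -4), (8, 2)), (3, (-3, -1), (2, -1))]]⟩,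
    ⟨1, 0, (2, 2), (2, 2), [
      [(0, (-12, -4), (-12, -4)), (0, (-10, -4), (-4, -4)), (0, (-2, -4), (0, 2)), (0, (2, 2), (2, 2)), (0, (4, 2), (8, 2)), (0, (10, 2), (10, 2)), (3, (-4, -1), (-2, -1)), (3, (0, -1), (1, -1))]]⟩,
    ⟨0, 1, (-2, -2), (-2, -2), [
      [(0, (-12, -4), (-12, -4)), (0, (-10, -4), (-6, -4)), (0, (-4, -4), (0, 2)), (0, (2, 2), (2, 2)), (0, (4, 2), (8, 2)), (0, (10, 2), (10, 2)), (3, (-4, -1), (-3, -1)), (3, (-1, -1), (1, -1))]]⟩,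
    ⟨0, 1, (0, -2), (0, -2), [
      [(0, (-8, -4), (8, 2)), (3, (-3, -1), (2, -1))]]⟩,
    ⟨0, 1, (1, -2), (-1, 2), []⟩,
    ⟨0, 1, (0, 2), (0, 2), [
      [(0, (-8, -2), (8, 4)), (3, (-3, 1), (2, 1))]]⟩,
    ⟨0, 1, (2, 2), (2, 2), [
      [(0, (-10, -2), (-10, -2)), (0, (-8, -2), (-4, -2)), (0, (-2, -2), (-2, -2)), (0, (0, -2), (2, 4)), (0, (4, 4), (10, 4)), (0, (12, 4), (12, 4)), (3, (-2, 1), (-1, 1)), (3, (1, 1), (3, 1))]]⟩,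
    ⟨-1, -1, (-2, -2), (-2, -2), [
      [(0, (-12, -4), (-12, -4)), (0, (-10, -4), (-4, -4)), (0, (-2, -4), (0, 2)), (0, (2, 2), (8, 2)), (0, (10, 2), (10, 2)), (3, (-4, -1), (-3, -1)), (3, (0, -1), (1, -1))]]⟩,
    ⟨-1, -1, (0, -2), (0, -2), [
      [(0, (-8, -4), (8, 2)), (3, (-3, -1), (2, -1))]]⟩,
    ⟨-1, -1, (1, -2), (-2, 2), []⟩,
    ⟨-1, -1, (0, 2), (0, 2), [
      [(0, (-8, -2), (8, 4)), (3, (-3, 1), (2, 1))]]⟩,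
    ⟨-1, -1, (2, 2), (2, 2), [
      [(0, (-10, -2), (-10, -2)), (0, (-8, -2), (-4, -2)), (0, (-2, -2), (4, 4)), (0, (6, 4), (10, 4)), (0, (12, 4), (12, 4)), (3, (-2, 1), (-1, 1)), (3, (2, 1), (3, 1))]]⟩,
    ⟨1, -1, (-8, 0), (-8, 0), [
      [(0, (-2, -2), (-2, -2)), (0, (0, -2), (8, 2)), (0, (10, 2), (10, 2)), (2, (1, 0), (7, 0)), (3, (5, -1), (3, 1)), (4, (0, 0), (4, 0)), (4, (6, 0), (6, 0))]]⟩,
    ⟨1, -1, (-6, 0), (-2, 0), [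
      [(0, (-2, -2), (8, 2)), (2, (-1, 0), (3, 0)), (2, (5, 0), (5, 0)), (3, (4, -1), (2, 1)), (4, (0, 0), (6, 0))],
      [(0, (-2, -2), (-2, -2)), (0, (0, -2), (5, 2)), (0, (7, 2), (7, 2)), (2, (0, 0), (5, 0)), (3, (1, -1), (3, 1)), (4, (-1, 0), (4, 0))],
      [(0, (-2, -2), (6, 2)), (2, (-1, 0), (5, 0)), (3, (3, -1), (1, 1)), (4, (-2, 0), (4, 0))],
      [(0, (-2, -2), (5, 2)), (2, (-2, 0), (3, 0)), (3, (0, -1), (2, 1)), (4, (-1, 0), (4, 0))],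
      [(0, (-2, -2), (4, 2)), (2, (-1, 0), (3, 0)), (3, (2, -1), (0, 1)), (4, (-2, 0), (2, 0))]]⟩,
    ⟨1, -1, (0, 0), (0, 0), [
      [(0, (-2, -2), (2, 2)), (2, (-3, 0), (1, 0)), (3, (1, -1), (-1, 1)), (4, (-2, 0), (2, 0))]]⟩,
    ⟨1, -1, (2, 0), (6, 0), [
      [(0, (-4, -2), (2, 2)), (2, (-3, 0), (1, 0)), (3, (0, -1), (-2, 1)), (4, (-4, 0), (0, 0))],
      [(0, (-5, -2), (2, 2)), (2, (-5, 0), (0, 0)), (3, (-3, -1), (-1, 1)), (4, (-4, 0), (1, 0))],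
      [(0, (-6, -2), (2, 2)), (2, (-5, 0), (1, 0)), (3, (-1, -1), (-3, 1)), (4, (-6, 0), (0, 0))],
      [(0, (-7, -2), (-7, -2)), (0, (-5, -2), (0, 2)), (0, (2, 2), (2, 2)), (2, (-5, 0), (0, 0)), (3, (-4, -1), (-2, 1)), (4, (-6, 0), (-1, 0))],
      [(0, (-8, -2), (2, 2)), (2, (-7, 0), (-3, 0)), (2, (-1, 0), (-1, 0)), (3, (-2, -1), (-4, 1)), (4, (-6, 0), (0, 0))]]⟩,
    ⟨1, -1, (8, 0), (8, 0), [
      [(0, (-10, -2), (-10, -2)), (0, (-8, -2), (0, 2)), (0, (2, 2), (2, 2)), (2, (-7, 0), (-1, 0)), (3, (-3, -1), (-5, 1)), (4, (-8, 0), (-4, 0)), (4, (-2, 0), (-2, 0))]]⟩,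
    ⟨1, 2, (-8, 0), (-8, 0), [
      [(0, (-10, -2), (-10, -2)), (0, (-8, -2), (0, 2)), (0, (2, 2), (2, 2)), (2, (-7, 0), (-7, 0)), (2, (-5, 0), (-1, 0)), (3, (-4, -1), (-5, 1)), (4, (-8, 0), (-4, 0)), (4, (-2, 0), (-2, 0))]]⟩,
    ⟨1, 2, (-6, 0), (0, 0), [
      [(0, (-8, -2), (2, 2)), (2, (-7, 0), (-3, 0)), (2, (-1, 0), (-1, 0)), (3, (-3, -1), (-4, 1)), (4, (-6, 0), (-6, 0)), (4, (-4, 0), (0, 0))],
      [(0, (-7, -2), (-7, -2)), (0, (-5, -2), (0, 2)), (0, (2, 2), (2, 2)), (2, (-5, 0), (0, 0)), (3, (-4, -1), (-2, 1)), (4, (-6, 0), (-1, 0))],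
      [(0, (-6, -2), (2, 2)), (2, (-5, 0), (1, 0)), (3, (-2, -1), (-3, 1)), (4, (-6, 0), (0, 0))],
      [(0, (-5, -2), (2, 2)), (2, (-5, 0), (0, 0)), (3, (-3, -1), (-1, 1)), (4, (-4, 0), (1, 0))],
      [(0, (-4, -2), (2, 2)), (2, (-3, 0), (1, 0)), (3, (-1, -1), (-2, 1)), (4, (-4, 0), (0, 0))],
      [(0, (-3, -2), (2, 2)), (2, (-3, 0), (2, 0)), (3, (-2, -1), (0, 1)), (4, (-4, 0), (1, 0))],
      [(0, (-2, -2), (2, 2)), (2, (-3, 0), (1, 0)), (3, (0, -1), (-1, 1)), (4, (-2, 0), (2, 0))]]⟩,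
    ⟨1, 2, (2, 0), (6, 0), [
      [(0, (-2, -2), (4, 2)), (2, (-1, 0), (3, 0)), (3, (1, -1), (0, 1)), (4, (-2, 0), (2, 0))],
      [(0, (-2, -2), (5, 2)), (2, (-2, 0), (3, 0)), (3, (0, -1), (2, 1)), (4, (-1, 0), (4, 0))],
      [(0, (-2, -2), (6, 2)), (2, (-1, 0), (5, 0)), (3, (2, -1), (1, 1)), (4, (-2, 0), (4, 0))],
      [(0, (-2, -2), (3, 2)), (0, (5, 2), (5, 2)), (0, (7, 2), (7, 2)), (2, (0, 0), (5, 0)), (3, (1, -1), (3, 1)), (4, (-1, 0), (4, 0))],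
      [(0, (-2, -2), (6, 2)), (0, (8, 2), (8, 2)), (2, (-1, 0), (5, 0)), (3, (3, -1), (2, 1)), (4, (0, 0), (0, 0)), (4, (2, 0), (6, 0))]]⟩,
    ⟨1, 2, (8, 0), (8, 0), [
      [(0, (-2, -2), (-2, -2)), (0, (0, -2), (6, 2)), (0, (8, 2), (8, 2)), (0, (10, 2), (10, 2)), (2, (1, 0), (1, 0)), (2, (3, 0), (7, 0)), (3, (4, -1), (3, 1)), (4, (0, 0), (6, 0))]]⟩,
    ⟨-2, -1, (-8, 0), (-8, 0), [
      [(0, (-2, -2), (-2, -2)), (0, (0, -2), (6, 2)), (0, (8, 2), (8, 2)), (0, (10, 2), (10, 2)), (2, (1, 0), (1, 0)), (2, (3, 0), (7, 0)), (3, (4, -1), (3, 1)), (4, (0, 0), (6, 0))]]⟩,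
    ⟨-2, -1, (-6, 0), (-2, 0), [
      [(0, (-2, -2), (6, 2)), (0, (8, 2), (8, 2)), (2, (-1, 0), (5, 0)), (3, (3, -1), (2, 1)), (4, (0, 0), (0, 0)), (4, (2, 0), (6, 0))],
      [(0, (-2, -2), (3, 2)), (0, (5, 2), (5, 2)), (0, (7, 2), (7, 2)), (2, (0, 0), (5, 0)), (3, (1, -1), (3, 1)), (4, (-1, 0), (4, 0))],
      [(0, (-2, -2), (6, 2)), (2, (-1, 0), (5, 0)), (3, (2, -1), (1, 1)), (4, (-2, 0), (4, 0))],
      [(0, (-2, -2), (5, 2)), (2, (-2, 0), (3, 0)), (3, (0, -1), (2, 1)), (4, (-1, 0), (4, 0))],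
      [(0, (-2, -2), (4, 2)), (2, (-1, 0), (3, 0)), (3, (1, -1), (0, 1)), (4, (-2, 0), (2, 0))]]⟩,
    ⟨-2, -1, (0, 0), (6, 0), [
      [(0, (-2, -2), (2, 2)), (2, (-3, 0), (1, 0)), (3, (0, -1), (-1, 1)), (4, (-2, 0), (2, 0))],
      [(0, (-3, -2), (2, 2)), (2, (-3, 0), (2, 0)), (3, (-2, -1), (0, 1)), (4, (-4, 0), (1, 0))],
      [(0, (-4, -2), (2, 2)), (2, (-3, 0), (1, 0)), (3, (-1, -1), (-2, 1)), (4, (-4, 0), (0, 0))],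
      [(0, (-5, -2), (2, 2)), (2, (-5, 0), (0, 0)), (3, (-3, -1), (-1, 1)), (4, (-4, 0), (1, 0))],
      [(0, (-6, -2), (2, 2)), (2, (-5, 0), (1, 0)), (3, (-2, -1), (-3, 1)), (4, (-6, 0), (0, 0))],
      [(0, (-7, -2), (-7, -2)), (0, (-5, -2), (0, 2)), (0, (2, 2), (2, 2)), (2, (-5, 0), (0, 0)), (3, (-4, -1), (-2, 1)), (4, (-6, 0), (-1, 0))],
      [(0, (-8, -2), (2, 2)), (2, (-7, 0), (-3, 0)), (2, (-1, 0), (-1, 0)), (3, (-3, -1), (-4, 1)), (4, (-6, 0), (-6, 0)), (4, (-4, 0), (0, 0))]]⟩,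
    ⟨-2, -1, (8, 0), (8, 0), [
      [(0, (-10, -2), (-10, -2)), (0, (-8, -2), (0, 2)), (0, (2, 2), (2, 2)), (2, (-7, 0), (-7, 0)), (2, (-5, 0), (-1, 0)), (3, (-4, -1), (-5, 1)), (4, (-8, 0), (-4, 0)), (4, (-2, 0), (-2, 0))]]⟩]

lemma f2_ok : chkFam f2 = true := by decide +kernel

/-- Family with 28 + 12 κ points. -/
def f4 : Fam where
  κ0 := 2
  t := 6
  s := 4
  K := (1, 2)
  n := (28, 12)
  qs := [
    ⟨1, 0, (0, -2), (2, -2), [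
      [(0, (-3, -2), (3, 4)), (3, (-2, 1), (1, 1))],
      [(0, (-2, -2), (1, 4)), (3, (-4, 1), (2, 1))],
      [(0, (-1, -2), (-1, 4)), (3, (-3, 1), (0, 1))]]⟩,
    ⟨1, 0, (4, -2), (-3, 2), []⟩,
    ⟨1, 0, (-2, 2), (0, 2), [
      [(0, (1, -4), (1, 2)), (3, (-1, -1), (2, -1))],
      [(0, (-1, -4), (2, 2)), (3, (-3, -1), (3, -1))],
      [(0, (-3, -4), (3, 2)), (3, (-2, -1), (1, -1))]]⟩,
    ⟨0, 1, (-1, -2), (2, -2), [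
      [(0, (-8, -4), (-4, 2)), (0, (-2, 2), (2, 2)), (0, (4, 2), (4, 2)), (3, (-1, -1), (-1, -1))],
      [(0, (-6, -4), (-6, -4)), (0, (-4, -4), (1, 2)), (0, (3, 2), (3, 2)), (3, (-2, -1), (1, -1))],
      [(0, (-4, -4), (2, 2)), (3, (0, -1), (0, -1))],
      [(0, (-2, -4), (1, 2)), (3, (-1, -1), (2, -1))]]⟩,
    ⟨0, 1, (3, -2), (-3, 2), []⟩,
    ⟨0, 1, (-2, 2), (1, 2), [
      [(0, (-1, -2), (2, 4)), (3, (-3, 1), (0, 1))],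
      [(0, (-2, -2), (4, 4)), (3, (-1, 1), (-1, 1))],
      [(0, (-3, -2), (-3, -2)), (0, (-1, -2), (4, 4)), (0, (6, 4), (6, 4)), (3, (-2, 1), (1, 1))],
      [(0, (-4, -2), (-4, -2)), (0, (-2, -2), (6, 4)), (0, (8, 4), (8, 4)), (3, (0, 1), (0, 1))]]⟩,
    ⟨-1, -1, (-1, -2), (2, -2), [
      [(0, (-5, -4), (1, -4)), (0, (3, -4), (5, 2)), (0, (7, 2), (7, 2)), (3, (-1, -1), (-1, -1))],
      [(0, (-3, -4), (-3, -4)), (0, (-1, -4), (4, 2)), (0, (6, 2), (6, 2)), (3, (-2, -1), (1, -1))],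
      [(0, (-1, -4), (5, 2)), (3, (0, -1), (0, -1))],
      [(0, (1, -4), (4, 2)), (3, (-1, -1), (2, -1))]]⟩,
    ⟨-1, -1, (3, -2), (-3, 2), []⟩,
    ⟨-1, -1, (-2, 2), (1, 2), [
      [(0, (-4, -2), (-1, 4)), (3, (-3, 1), (0, 1))],
      [(0, (-5, -2), (1, 4)), (3, (-1, 1), (-1, 1))],
      [(0, (-6, -2), (-6, -2)), (0, (-4, -2), (1, 4)), (0, (3, 4), (3, 4)), (3, (-2, 1), (1, 1))],
      [(0, (-7, -2), (-7, -2)), (0, (-5, -2), (3, 4)), (0, (5, 4), (5, 4)), (3, (0, 1), (0, 1))]]⟩,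
    ⟨1, -1, (-3, 0), (-3, 0), [
      [(0, (-1, -2), (3, 2)), (2, (0, 0), (2, 0)), (3, (1, -1), (1, 1)), (4, (-1, 0), (1, 0))]]⟩,
    ⟨1, -1, (-1, 0), (1, 0), [
      [(0, (-1, -2), (1, 2)), (2, (-2, 0), (2, 0)), (3, (0, -1), (0, 1)), (4, (-1, 0), (1, 0))],
      [(0, (-1, -2), (1, 2)), (2, (-1, 0), (1, 0)), (3, (-1, -1), (0, 1)), (4, (-2, 0), (0, 0))],
      [(0, (-1, -2), (1, 2)), (2, (-2, 0), (0, 0)), (3, (-1, -1), (-1, 1)), (4, (-3, 0), (1, 0))]]⟩,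
    ⟨1, -1, (3, 0), (3, 0), [
      [(0, (-3, -2), (1, 2)), (2, (-2, 0), (0, 0)), (3, (-2, -1), (-2, 1)), (4, (-3, 0), (-1, 0))]]⟩,
    ⟨1, 2, (-6, 0), (-6, 0), [
      [(0, (-7, -2), (1, 2)), (2, (-4, 0), (-4, 0)), (2, (-2, 0), (-2, 0)), (3, (-3, -1), (-6, 1)), (3, (-4, 1), (-4, 1)), (4, (-5, 0), (-5, 0)), (4, (-3, 0), (-3, 0))]]⟩,
    ⟨1, 2, (-4, 0), (4, 0), [
      [(0, (-5, -2), (1, 2)), (2, (-4, 0), (-2, 0)), (3, (-2, -1), (-5, 1)), (3, (-3, 1), (-3, 1)), (4, (-3, 0), (-1, 0))],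
      [(0, (-4, -2), (1, 2)), (2, (-2, 0), (-1, 0)), (3, (-2, -1), (-2, 1)), (4, (-3, 0), (-2, 0))],
      [(0, (-3, -2), (1, 2)), (2, (-2, 0), (0, 0)), (3, (-1, -1), (-2, 1)), (4, (-3, 0), (-1, 0))],
      [(0, (-2, -2), (1, 2)), (2, (-2, 0), (0, 0)), (3, (-1, -1), (-1, 1)), (4, (-2, 0), (0, 0))],
      [(0, (-1, -2), (1, 2)), (2, (0, 0), (0, 0)), (3, (0, -1), (-1, 1)), (4, (-1, 0), (-1, 0))],
      [(0, (-1, -2), (2, 2)), (2, (-1, 0), (1, 0)), (3, (0, -1), (0, 1)), (4, (-1, 0), (1, 0))],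
      [(0, (-1, -2), (3, 2)), (2, (0, 0), (2, 0)), (3, (1, -1), (0, 1)), (4, (-1, 0), (1, 0))],
      [(0, (-1, -2), (4, 2)), (2, (1, 0), (2, 0)), (3, (1, -1), (1, 1)), (4, (0, 0), (1, 0))],
      [(0, (-1, -2), (5, 2)), (2, (0, 0), (2, 0)), (3, (2, -1), (-1, 1)), (3, (1, 1), (1, 1)), (4, (1, 0), (3, 0))]]⟩,
    ⟨1, 2, (6, 0), (6, 0), [
      [(0, (-1, -2), (7, 2)), (2, (2, 0), (2, 0)), (2, (4, 0), (4, 0)), (3, (3, -1), (0, 1)), (3, (2, 1), (2, 1)), (4, (1, 0), (1, 0)), (4, (3, 0), (3, 0))]]⟩,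
    ⟨-2, -1, (-3, 0), (-3, 0), [
      [(0, (0, -2), (4, 2)), (2, (1, 0), (3, 0)), (3, (1, -1), (1, 1)), (4, (0, 0), (2, 0))]]⟩,
    ⟨-2, -1, (-1, 0), (1, 0), [
      [(0, (0, -2), (2, 2)), (2, (-1, 0), (1, 0)), (3, (0, -1), (0, 1)), (4, (-2, 0), (2, 0))],
      [(0, (-1, -2), (1, 2)), (2, (-1, 0), (1, 0)), (3, (-1, -1), (0, 1)), (4, (-2, 0), (0, 0))],
      [(0, (-2, -2), (0, 2)), (2, (-3, 0), (1, 0)), (3, (-1, -1), (-1, 1)), (4, (-2, 0), (0, 0))]]⟩,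
    ⟨-2, -1, (3, 0), (3, 0), [
      [(0, (-4, -2), (0, 2)), (2, (-3, 0), (-1, 0)), (3, (-2, -1), (-2, 1)), (4, (-4, 0), (-2, 0))]]⟩]

lemma f4_ok : chkFam f4 = true := by decide +kernel

/-- Family with 6 + 12 κ points. -/
def f6 : Fam where
  κ0 := 2
  t := 0
  s := 1
  K := (0, 2)
  n := (6, 12)
  qs := [
    ⟨1, 0, (0, -2), (0, -2), [
      [(0, (0, -2), (0, 4))]]⟩,
    ⟨1, 0, (1, -2), (-1, 2), []⟩,
    ⟨1, 0, (0, 2), (0, 2), [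
      [(0, (0, -4), (0, 2))]]⟩,
    ⟨0, 1, (0, -2), (0, -2), [
      [(0, (0, -4), (0, 2))]]⟩,
    ⟨0, 1, (1, -2), (-1, 2), []⟩,
    ⟨0, 1, (0, 2), (0, 2), [
      [(0, (0, -2), (0, 4))]]⟩,
    ⟨-1, -1, (0, -2), (0, -2), [
      [(0, (0, -4), (0, 2))]]⟩,
    ⟨-1, -1, (1, -2), (-1, 2), []⟩,
    ⟨-1, -1, (0, 2), (0, 2), [
      [(0, (0, -2), (0, 4))]]⟩,
    ⟨1, 2, (0, 0), (0, 0), [
      [(0, (0, -2), (0, 2)), (3, (0, -1), (-1, 1))]]⟩,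
    ⟨-2, -1, (0, 0), (0, 0), [
      [(0, (0, -2), (0, 2)), (3, (0, -1), (-1, 1))]]⟩]

lemma f6_ok : chkFam f6 = true := by decide +kernel

/-- Family with 8 + 12 κ points. -/
def f8 : Fam where
  κ0 := 5
  t := 4
  s := 10
  K := (2, 2)
  n := (8, 12)
  qs := [
    ⟨1, 0, (-2, -2), (-2, -2), [
      [(0, (-2, -2), (-2, -2)), (0, (0, -2), (0, -2)), (0, (2, -2), (0, 0)), (0, (2, 0), (0, 4)), (0, (2, 4), (2, 4)), (0, (4, 4), (4, 4))]]⟩,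
    ⟨1, 0, (0, -2), (7, -2), [
      [(0, (0, -2), (0, 4))],
      [(0, (0, -2), (-1, 4)), (3, (-2, 1), (-1, 1))],
      [(0, (0, -2), (-2, 4))],
      [(0, (0, -2), (-3, 4)), (3, (-3, 1), (-2, 1))],
      [(0, (0, -2), (-4, 4))],
      [(0, (0, -2), (-5, 4)), (3, (-4, 1), (-3, 1))],
      [(0, (0, -2), (-6, 4))],
      [(0, (0, -2), (-7, 4)), (3, (-5, 1), (-4, 1))]]⟩,
    ⟨1, 0, (8, -2), (-8, 2), []⟩,
    ⟨1, 0, (-7, 2), (-2, 2), [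
      [(0, (5, -4), (0, 2)), (3, (2, -1), (3, -1))],
      [(0, (4, -4), (0, 2))],
      [(0, (3, -4), (0, 2)), (3, (1, -1), (2, -1))],
      [(0, (2, -4), (0, 2))],
      [(0, (1, -4), (0, 2)), (3, (0, -1), (1, -1))],
      [(0, (0, -4), (0, 2))]]⟩,
    ⟨1, 0, (0, 2), (0, 2), [
      [(0, (-4, -4), (-4, -4)), (0, (-2, -4), (-2, -4)), (0, (0, -4), (0, 0)), (0, (2, 0), (-2, 2)), (0, (0, 2), (0, 2)), (0, (2, 2), (2, 2))]]⟩,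
    ⟨0, 1, (0, -2), (0, -2), [
      [(0, (0, -4), (0, 2)), (0, (2, 2), (2, 2))]]⟩,
    ⟨0, 1, (2, -2), (7, -2), [
      [(0, (2, -4), (2, 2))],
      [(0, (3, -4), (0, 2)), (0, (2, 2), (2, 2)), (3, (1, -1), (3, -1))],
      [(0, (4, -4), (2, 2))],
      [(0, (5, -4), (2, 2)), (3, (2, -1), (4, -1))],
      [(0, (6, -4), (2, 2))],
      [(0, (7, -4), (2, 2)), (3, (3, -1), (5, -1))]]⟩,
    ⟨0, 1, (8, -2), (0, 0), []⟩,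
    ⟨0, 1, (2, 0), (-8, 2), []⟩,
    ⟨0, 1, (-7, 2), (-2, 2), [
      [(0, (0, -2), (-5, 4)), (3, (-4, 1), (-2, 1))],
      [(0, (0, -2), (-4, 4))],
      [(0, (0, -2), (-3, 4)), (3, (-3, 1), (-1, 1))],
      [(0, (0, -2), (-2, 4))],
      [(0, (0, -2), (-3, 4)), (0, (-1, 4), (-1, 4)), (3, (-2, 1), (0, 1))],
      [(0, (0, -2), (0, 4))]]⟩,
    ⟨0, 1, (0, 2), (0, 2), [
      [(0, (0, -2), (0, 4)), (0, (2, 4), (2, 4))]]⟩,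
    ⟨-1, -1, (0, -2), (0, -2), [
      [(0, (-4, -4), (-4, -4)), (0, (-2, -4), (-2, -4)), (0, (0, -4), (-2, 0)), (0, (0, 0), (-2, 2)), (0, (0, 2), (0, 2)), (0, (2, 2), (2, 2))]]⟩,
    ⟨-1, -1, (2, -2), (7, -2), [
      [(0, (0, -4), (0, 2))],
      [(0, (1, -4), (0, 2)), (3, (0, -1), (1, -1))],
      [(0, (2, -4), (0, 2))],
      [(0, (3, -4), (0, 2)), (3, (1, -1), (2, -1))],
      [(0, (4, -4), (0, 2))],
      [(0, (5, -4), (0, 2)), (3, (2, -1), (3, -1))]]⟩,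
    ⟨-1, -1, (8, -2), (-8, 2), []⟩,
    ⟨-1, -1, (-7, 2), (0, 2), [
      [(0, (0, -2), (-7, 4)), (3, (-5, 1), (-4, 1))],
      [(0, (0, -2), (-6, 4))],
      [(0, (0, -2), (-5, 4)), (3, (-4, 1), (-3, 1))],
      [(0, (0, -2), (-4, 4))],
      [(0, (0, -2), (-3, 4)), (3, (-3, 1), (-2, 1))],
      [(0, (0, -2), (-2, 4))],
      [(0, (0, -2), (-1, 4)), (3, (-2, 1), (-1, 1))],
      [(0, (0, -2), (0, 4))]]⟩,
    ⟨-1, -1, (2, 2), (2, 2), [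
      [(0, (-2, -2), (-2, -2)), (0, (0, -2), (0, -2)), (0, (2, -2), (-2, 0)), (0, (0, 0), (0, 4)), (0, (2, 4), (2, 4)), (0, (4, 4), (4, 4))]]⟩,
    ⟨1, -1, (-2, 0), (-2, 0), [
      [(0, (0, -2), (0, -2)), (0, (2, -2), (0, 2)), (0, (2, 2), (2, 2)), (2, (1, 0), (1, 0)), (3, (1, -1), (-1, 1)), (4, (0, 0), (0, 0))]]⟩,
    ⟨1, -1, (0, 0), (0, 0), [
      [(0, (-2, -2), (-2, -2)), (0, (0, -2), (-2, 2)), (0, (0, 2), (0, 2)), (2, (-1, 0), (-1, 0)), (3, (0, -1), (-2, 1)), (4, (-2, 0), (-2, 0))]]⟩,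
    ⟨1, 2, (-2, 0), (-2, 0), [
      [(0, (-2, -2), (-2, -2)), (0, (0, -2), (-2, 2)), (0, (0, 2), (0, 2)), (2, (-1, 0), (-1, 0)), (3, (0, -1), (-2, 1)), (4, (-2, 0), (-2, 0))]]⟩,
    ⟨1, 2, (0, 0), (0, 0), [
      [(0, (0, -2), (0, -2)), (0, (2, -2), (0, 2)), (0, (2, 2), (2, 2)), (2, (1, 0), (1, 0)), (3, (1, -1), (-1, 1)), (4, (0, 0), (0, 0))]]⟩,
    ⟨-2, -1, (0, 0), (0, 0), [
      [(0, (-2, -2), (-2, -2)), (0, (0, -2), (0, 2)), (0, (2, 2), (2, 2)), (2, (-1, 0), (-1, 0)), (3, (1, -1), (-2, 0)), (3, (0, 0), (-2, 1)), (4, (0, 0), (0, 0))]]⟩,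
    ⟨-2, -1, (2, 0), (2, 0), [
      [(0, (-2, -2), (0, 2)), (2, (-1, 0), (-1, 0)), (3, (0, -1), (-3, 0)), (3, (-1, 0), (-3, 1)), (4, (-2, 0), (-2, 0))]]⟩,
    ⟨-2, -1, (4, 0), (4, 0), [
      [(0, (-4, -2), (-4, -2)), (0, (-2, -2), (-2, 2)), (0, (0, 2), (0, 2)), (2, (-3, 0), (-3, 0)), (3, (-1, -1), (-4, 0)), (3, (-2, 0), (-4, 1)), (4, (-2, 0), (-2, 0))]]⟩]

lemma f8_ok : chkFam f8 = true := by decide +kernel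

/-- Family with 10 + 12 κ points. -/
def f10 : Fam where
  κ0 := 2
  t := 1
  s := 6
  K := (2, 2)
  n := (10, 12)
  qs := [
    ⟨1, 0, (-1, -2), (-1, -2), [
      [(0, (-2, -2), (-2, -2)), (0, (0, -2), (0, 4)), (0, (2, 4), (2, 4))]]⟩,
    ⟨1, 0, (1, -2), (3, -2), [
      [(0, (-2, -2), (0, 4))],
      [(0, (-2, -2), (-1, 4)), (3, (-2, 1), (-2, 1))],
      [(0, (-2, -2), (-2, 4))]]⟩,
    ⟨1, 0, (4, -2), (-4, 2), []⟩,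
    ⟨1, 0, (-3, 2), (1, 2), [
      [(0, (2, -4), (0, 2))],
      [(0, (1, -4), (0, 2)), (3, (0, -1), (0, -1))],
      [(0, (0, -4), (0, 2))],
      [(0, (-1, -4), (0, 2)), (3, (-1, -1), (-1, -1))],
      [(0, (-2, -4), (0, 2))]]⟩,
    ⟨0, 1, (-2, -2), (-2, -2), [
      [(0, (-3, -4), (-3, -4)), (0, (-1, -4), (-1, 2)), (0, (1, 2), (1, 2))]]⟩,
    ⟨0, 1, (0, -2), (3, -2), [
      [(0, (-1, -4), (1, 2))],
      [(0, (0, -4), (1, 2)), (3, (0, -1), (0, -1))],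
      [(0, (1, -4), (1, 2))],
      [(0, (2, -4), (1, 2)), (3, (1, -1), (1, -1))]]⟩,
    ⟨0, 1, (4, -2), (-4, 2), []⟩,
    ⟨0, 1, (-3, 2), (0, 2), [
      [(0, (-1, -2), (-2, 4)), (3, (-2, 1), (-2, 1))],
      [(0, (-1, -2), (-1, 4))],
      [(0, (-1, -2), (0, 4)), (3, (-1, 1), (-1, 1))],
      [(0, (-1, -2), (1, 4))]]⟩,
    ⟨-1, -1, (-1, -2), (-1, -2), [
      [(0, (-2, -4), (-2, -4)), (0, (0, -4), (0, 2)), (0, (2, 2), (2, 2))]]⟩,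
    ⟨-1, -1, (1, -2), (3, -2), [
      [(0, (0, -4), (2, 2))],
      [(0, (1, -4), (2, 2)), (3, (1, -1), (1, -1))],
      [(0, (2, -4), (2, 2))]]⟩,
    ⟨-1, -1, (4, -2), (-4, 2), []⟩,
    ⟨-1, -1, (-3, 2), (1, 2), [
      [(0, (0, -2), (-2, 4))],
      [(0, (0, -2), (-1, 4)), (3, (-1, 1), (-1, 1))],
      [(0, (0, -2), (0, 4))],
      [(0, (0, -2), (1, 4)), (3, (0, 1), (0, 1))],
      [(0, (0, -2), (2, 4))]]⟩,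
    ⟨1, -1, (1, 0), (1, 0), [
      [(0, (-2, -2), (-2, -2)), (0, (0, -2), (0, 2)), (2, (-1, 0), (-1, 0)), (3, (-1, -1), (-2, 1))]]⟩,
    ⟨1, 2, (-1, 0), (-1, 0), [
      [(0, (-2, -2), (-2, -2)), (0, (0, -2), (0, 2)), (2, (-1, 0), (-1, 0)), (3, (-1, -1), (-2, 1))]]⟩,
    ⟨-2, -1, (0, 0), (0, 0), [
      [(0, (-1, -2), (-1, -2)), (0, (1, -2), (1, 2)), (2, (0, 0), (0, 0)), (3, (0, -1), (-1, 1))]]⟩]

lemma f10_ok : chkFam f10 = true := by decide +kernel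

theorem even_not_good (n : ℕ) (heven : n % 2 = 0) (hn : 85 ≤ n) : ¬ Good n := by
  have h : n % 12 = 0 ∨ n % 12 = 2 ∨ n % 12 = 4 ∨ n % 12 = 6 ∨ n % 12 = 8 ∨ n % 12 = 10 := by
    omega
  rcases h with h | h | h | h | h | h
  · exact fam_not_good f0 f0_ok (((n : ℤ) - 72) / 12) (by simp only [f0]; omega) n
      (by simp only [f0, ev]; omega)
  · exact fam_not_good f2 f2_ok (((n : ℤ) - 50) / 12) (by simp only [f2]; omega) n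
      (by simp only [f2, ev]; omega)
  · exact fam_not_good f4 f4_ok (((n : ℤ) - 28) / 12) (by simp only [f4]; omega) n
      (by simp only [f4, ev]; omega)
  · exact fam_not_good f6 f6_ok (((n : ℤ) - 6) / 12) (by simp only [f6]; omega) n
      (by simp only [f6, ev]; omega)
  · exact fam_not_good f8 f8_ok (((n : ℤ) - 8) / 12) (by simp only [f8]; omega) n
      (by simp only [f8, ev]; omega)
  · exact fam_not_good f10 f10_ok (((n : ℤ) - 10) / 12) (by simp only [f10]; omega) n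
      (by simp only [f10, ev]; omega)

end Pool.Agent.Helper447.Dirac
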